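import Pool.Agent.Lib.MP_08f71d_gt.Geodesic

/-!
# Coordinates on the Siegel upper half space

Principal minors, upper triangular affine maps and their effect on minors and on the metric.
-/

set_option autoImplicit false

open scoped ContDiff Topology Matrix

namespace Pool.Agent.Lib.MP_08f71d_gt

/-- The six upper triangular entries of a matrix. -/
def unsym (S : Matrix (Fin 3) (Fin 3) ℝ) : Fin 6 → ℝ :=
  ![S 0 0, S 0 1, S 0 2, S 1 1, S 1 2, S 2 2]

theorem unsym_sym (a : Fin 6 → ℝ) : unsym (sym a) = a := by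
  ext i
  fin_cases i <;> simp [unsym, sym]

theorem sym_unsym {S : Matrix (Fin 3) (Fin 3) ℝ} (hS : Sᵀ = S) : sym (unsym S) = S := by
  have h01 : S 1 0 = S 0 1 := congrFun (congrFun hS 0) 1
  have h02 : S 2 0 = S 0 2 := congrFun (congrFun hS 0) 2
  have h12 : S 2 1 = S 1 2 := congrFun (congrFun hS 1) 2
  ext i j
  fin_cases i <;> fin_cases j <;> simp [unsym, sym, h01, h02, h12]

theorem sym_transpose (a : Fin 6 → ℝ) : (sym a)ᵀ = sym a := by
  ext i j
  fin_cases i <;> fin_cases j <;> simp [sym]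

theorem sym_add (a b : Fin 6 → ℝ) : sym (a + b) = sym a + sym b := by
  ext i j
  fin_cases i <;> fin_cases j <;> simp [sym]

theorem sym_smul (r : ℝ) (a : Fin 6 → ℝ) : sym (r • a) = r • sym a := by
  ext i j
  fin_cases i <;> fin_cases j <;> simp [sym]

theorem sym_zero : sym 0 = 0 := by
  ext i j
  fin_cases i <;> fin_cases j <;> simp [sym]

theorem sym_injective {a b : Fin 6 → ℝ} (h : sym a = sym b) : a = b := by
  rw [← unsym_sym a, ← unsym_sym b, h]

/-- The action of a matrix on symmetric matrices. -/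
def act (g : Matrix (Fin 3) (Fin 3) ℝ) : (Fin 6 → ℝ) →ₗ[ℝ] (Fin 6 → ℝ) where
  toFun a := unsym (g * sym a * gᵀ)
  map_add' a b := by
    rw [sym_add, Matrix.mul_add, Matrix.add_mul]
    ext i
    fin_cases i <;> simp [unsym]
  map_smul' r a := by
    rw [sym_smul, Matrix.mul_smul, Matrix.smul_mul]
    ext i
    fin_cases i <;> simp [unsym]

theorem sym_act (g : Matrix (Fin 3) (Fin 3) ℝ) (a : Fin 6 → ℝ) :
    sym (act g a) = g * sym a * gᵀ := by
  apply sym_unsym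
  rw [Matrix.transpose_mul, Matrix.transpose_mul, Matrix.transpose_transpose, sym_transpose,
    Matrix.mul_assoc]

/-- The action on pairs. -/
noncomputable def actE (g : Matrix (Fin 3) (Fin 3) ℝ) : E12 →L[ℝ] E12 :=
  ((act g).prodMap (act g)).toContinuousLinearMap

theorem actE_apply (g : Matrix (Fin 3) (Fin 3) ℝ) (z : E12) :
    actE g z = (act g z.1, act g z.2) := rfl

theorem act_mul (g h : Matrix (Fin 3) (Fin 3) ℝ) (a : Fin 6 → ℝ) :
    act (g * h) a = act g (act h a) := by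
  apply sym_injective
  simp only [sym_act, Matrix.transpose_mul, Matrix.mul_assoc]

theorem act_one (a : Fin 6 → ℝ) : act 1 a = a := by
  apply sym_injective
  simp [sym_act]

theorem actE_mul (g h : Matrix (Fin 3) (Fin 3) ℝ) (z : E12) :
    actE (g * h) z = actE g (actE h z) := by
  simp only [actE_apply, act_mul]

theorem actE_one (z : E12) : actE 1 z = z := by
  simp only [actE_apply, act_one]

theorem actE_inv_left {g : Matrix (Fin 3) (Fin 3) ℝ} (hg : IsUnit g.det) (z : E12) :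
    actE g⁻¹ (actE g z) = z := by
  rw [← actE_mul, Matrix.nonsing_inv_mul g hg, actE_one]

theorem actE_inv_right {g : Matrix (Fin 3) (Fin 3) ℝ} (hg : IsUnit g.det) (z : E12) :
    actE g (actE g⁻¹ z) = z := by
  rw [← actE_mul, Matrix.mul_nonsing_inv g hg, actE_one]

/-- The affine map `Z ↦ g Z gᵀ + b`. -/
noncomputable def aff (g : Matrix (Fin 3) (Fin 3) ℝ) (b : Fin 6 → ℝ) (z : E12) : E12 :=
  actE g z + (b, 0)

theorem aff_snd (g : Matrix (Fin 3) (Fin 3) ℝ) (b : Fin 6 → ℝ) (z : E12) :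
    (aff g b z).2 = act g z.2 := by
  simp [aff, actE_apply]

theorem aff_fst (g : Matrix (Fin 3) (Fin 3) ℝ) (b : Fin 6 → ℝ) (z : E12) :
    (aff g b z).1 = act g z.1 + b := by
  simp [aff, actE_apply]

theorem hasFDerivAt_aff (g : Matrix (Fin 3) (Fin 3) ℝ) (b : Fin 6 → ℝ) (z : E12) :
    HasFDerivAt (aff g b) (actE g) z :=
  (actE g).hasFDerivAt.add_const _

/-- The metric is invariant under the affine maps. -/
theorem siegelMetric_aff {g : Matrix (Fin 3) (Fin 3) ℝ} (hg : IsUnit g.det) (b : Fin 6 → ℝ)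
    (z v w : E12) :
    siegelMetric (aff g b z) (actE g v) (actE g w) = siegelMetric z v w := by
  have key : ∀ Y V W : Matrix (Fin 3) (Fin 3) ℝ,
      ((g * Y * gᵀ)⁻¹ * (g * V * gᵀ) * (g * Y * gᵀ)⁻¹ * (g * W * gᵀ)).trace =
        (Y⁻¹ * V * Y⁻¹ * W).trace := by
    intro Y V W
    have hgt : IsUnit gᵀ.det := by rwa [Matrix.det_transpose]
    have h1 : (g * Y * gᵀ)⁻¹ = gᵀ⁻¹ * (Y⁻¹ * g⁻¹) := by
      rw [Matrix.mul_inv_rev, Matrix.mul_inv_rev]
    have h2 : (g * Y * gᵀ)⁻¹ * (g * V * gᵀ) = gᵀ⁻¹ * (Y⁻¹ * V) * gᵀ := by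
      rw [h1]
      simp only [Matrix.mul_assoc]
      rw [Matrix.nonsing_inv_mul_cancel_left _ _ hg]
    have h3 : (g * Y * gᵀ)⁻¹ * (g * W * gᵀ) = gᵀ⁻¹ * (Y⁻¹ * W) * gᵀ := by
      rw [h1]
      simp only [Matrix.mul_assoc]
      rw [Matrix.nonsing_inv_mul_cancel_left _ _ hg]
    rw [Matrix.mul_assoc, h2, h3]
    have h4 : gᵀ⁻¹ * (Y⁻¹ * V) * gᵀ * (gᵀ⁻¹ * (Y⁻¹ * W) * gᵀ) =
        gᵀ⁻¹ * ((Y⁻¹ * V) * (Y⁻¹ * W) * gᵀ) := by
      simp only [Matrix.mul_assoc]
      rw [Matrix.mul_nonsing_inv_cancel_left _ _ hgt]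
    rw [h4, Matrix.trace_mul_comm, Matrix.mul_nonsing_inv_cancel_right _ _ hgt]
    simp only [Matrix.mul_assoc]
  unfold siegelMetric
  rw [aff_snd, actE_apply, actE_apply]
  simp only [sym_act, key]

/-- First lower principal minor. -/
def m1 (z : E12) : ℝ := z.2 5

/-- Second lower principal minor. -/
def m2 (z : E12) : ℝ := z.2 3 * z.2 5 - z.2 4 ^ 2

/-- The determinant. -/
def m3 (z : E12) : ℝ :=
  z.2 0 * z.2 3 * z.2 5 + 2 * z.2 1 * z.2 2 * z.2 4 - z.2 0 * z.2 4 ^ 2 - z.2 3 * z.2 2 ^ 2 -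
    z.2 5 * z.2 1 ^ 2

theorem det_sym (z : E12) : (sym z.2).det = m3 z := by
  rw [Matrix.det_fin_three]
  simp [sym, m3]
  ring

theorem quadForm_sym (a : Fin 6 → ℝ) (v : Fin 3 → ℝ) :
    star v ⬝ᵥ (sym a).mulVec v = a 0 * v 0 ^ 2 + a 3 * v 1 ^ 2 + a 5 * v 2 ^ 2 +
      2 * a 1 * v 0 * v 1 + 2 * a 2 * v 0 * v 2 + 2 * a 4 * v 1 * v 2 := by
  simp [sym, Matrix.mulVec, dotProduct, Fin.sum_univ_three]
  ring

theorem mem_siegelSet_iff (z : E12) : z ∈ siegelSet ↔ 0 < m1 z ∧ 0 < m2 z ∧ 0 < m3 z := by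
  constructor
  · intro h
    have h : (sym z.2).PosDef := h
    have hpos : ∀ v : Fin 3 → ℝ, v ≠ 0 → 0 < star v ⬝ᵥ (sym z.2).mulVec v := fun v hv =>
      h.dotProduct_mulVec_pos hv
    have e1 : 0 < m1 z := by
      have := hpos ![0, 0, 1] (by intro h0; simpa using congrFun h0 2)
      rw [quadForm_sym] at this
      simpa [m1] using this
    have e2 : 0 < m2 z := by
      have h5 : 0 < z.2 5 := e1
      have := hpos ![0, z.2 5, - z.2 4] (by
        intro h0
        have := congrFun h0 1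
        simp at this
        linarith)
      rw [quadForm_sym] at this
      simp at this
      have h6 : 0 < z.2 5 * m2 z := by
        have e : z.2 5 * m2 z = z.2 3 * z.2 5 ^ 2 + z.2 5 * z.2 4 ^ 2 +
          -(2 * z.2 4 * z.2 5 * z.2 4) := by unfold m2; ring
        rw [e]; linarith
      exact (pos_iff_pos_of_mul_pos h6).1 h5
    exact ⟨e1, e2, by rw [← det_sym]; exact h.det_pos⟩
  · rintro ⟨h1, h2, h3⟩
    show (sym z.2).PosDef
    apply Matrix.PosDef.of_dotProduct_mulVec_pos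
    · rw [Matrix.IsHermitian, Matrix.conjTranspose_eq_transpose_of_trivial]
      exact sym_transpose _
    · intro v hv
      rw [quadForm_sym]
      have h5 : 0 < z.2 5 := h1
      have e : z.2 0 * v 0 ^ 2 + z.2 3 * v 1 ^ 2 + z.2 5 * v 2 ^ 2 +
          2 * z.2 1 * v 0 * v 1 + 2 * z.2 2 * v 0 * v 2 + 2 * z.2 4 * v 1 * v 2 =
          m1 z * (v 2 + (z.2 4 * v 1 + z.2 2 * v 0) / m1 z) ^ 2 +
          m2 z / m1 z * (v 1 + (z.2 1 * z.2 5 - z.2 2 * z.2 4) / m2 z * v 0) ^ 2 +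
          m3 z / m2 z * v 0 ^ 2 := by
        have n1 : m1 z ≠ 0 := h1.ne'
        have n2 : m2 z ≠ 0 := h2.ne'
        field_simp
        unfold m1 m2 m3
        ring
      rw [e]
      have p1 : 0 < m2 z / m1 z := div_pos h2 h1
      have p2 : 0 < m3 z / m2 z := div_pos h3 h2
      by_cases c0 : v 0 = 0
      · by_cases c1 : v 1 = 0
        · have c2 : v 2 ≠ 0 := by
            intro c2
            apply hv
            ext i
            fin_cases i <;> simp [c0, c1, c2]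
          rw [c0, c1]
          have : 0 < v 2 ^ 2 := by positivity
          simp
          positivity
        · rw [c0]
          have : 0 < v 1 ^ 2 := by positivity
          have e3 : m2 z / m1 z * (v 1 + (z.2 1 * z.2 5 - z.2 2 * z.2 4) / m2 z * 0) ^ 2 =
            m2 z / m1 z * v 1 ^ 2 := by ring
          rw [e3]
          positivity
      · have : 0 < v 0 ^ 2 := by positivity
        positivity

/-- Upper triangular matrices. -/
def ut (a n : Fin 3 → ℝ) : Matrix (Fin 3) (Fin 3) ℝ :=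
  !![a 0, n 0, n 1; 0, a 1, n 2; 0, 0, a 2]

theorem det_ut (a n : Fin 3 → ℝ) : (ut a n).det = a 0 * a 1 * a 2 := by
  rw [Matrix.det_fin_three]
  simp [ut]

theorem act_ut (a n : Fin 3 → ℝ) (y : Fin 6 → ℝ) :
    act (ut a n) y = ![a 0 * (a 0 * y 0 + n 0 * y 1 + n 1 * y 2) +
        n 0 * (a 0 * y 1 + n 0 * y 3 + n 1 * y 4) + n 1 * (a 0 * y 2 + n 0 * y 4 + n 1 * y 5),
      a 1 * (a 0 * y 1 + n 0 * y 3 + n 1 * y 4) + n 2 * (a 0 * y 2 + n 0 * y 4 + n 1 * y 5),
      a 2 * (a 0 * y 2 + n 0 * y 4 + n 1 * y 5),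
      a 1 * (a 1 * y 3 + n 2 * y 4) + n 2 * (a 1 * y 4 + n 2 * y 5),
      a 2 * (a 1 * y 4 + n 2 * y 5), a 2 * (a 2 * y 5)] := by
  show unsym _ = _
  ext i
  fin_cases i <;>
    simp [unsym, ut, sym, Matrix.mul_apply, Fin.sum_univ_three, Matrix.vecHead,
      Matrix.vecTail] <;> ring

theorem m1_aff (a n : Fin 3 → ℝ) (b : Fin 6 → ℝ) (z : E12) :
    m1 (aff (ut a n) b z) = a 2 ^ 2 * m1 z := by
  unfold m1
  rw [aff_snd, act_ut]
  simp
  ring

theorem m2_aff (a n : Fin 3 → ℝ) (b : Fin 6 → ℝ) (z : E12) :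
    m2 (aff (ut a n) b z) = (a 1 * a 2) ^ 2 * m2 z := by
  unfold m2
  rw [aff_snd, act_ut]
  simp
  ring

theorem m3_aff (a n : Fin 3 → ℝ) (b : Fin 6 → ℝ) (z : E12) :
    m3 (aff (ut a n) b z) = (a 0 * a 1 * a 2) ^ 2 * m3 z := by
  unfold m3
  rw [aff_snd, act_ut]
  simp
  ring

theorem aff_mem (a n : Fin 3 → ℝ) (ha : a 0 * a 1 * a 2 ≠ 0) (b : Fin 6 → ℝ) {z : E12}
    (hz : z ∈ siegelSet) : aff (ut a n) b z ∈ siegelSet := by
  rw [mem_siegelSet_iff] at hz ⊢
  rw [m1_aff, m2_aff, m3_aff]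
  have h2 : a 2 ≠ 0 := right_ne_zero_of_mul ha
  have h1 : a 1 ≠ 0 := right_ne_zero_of_mul (left_ne_zero_of_mul ha)
  obtain ⟨p1, p2, p3⟩ := hz
  refine ⟨by positivity, by positivity, by positivity⟩

/-- Points with vanishing real part and diagonal imaginary part. -/
def dg (d : Fin 3 → ℝ) : E12 := (0, ![d 0, 0, 0, d 1, 0, d 2])

theorem dg_mem {d : Fin 3 → ℝ} (hd : ∀ i, 0 < d i) : dg d ∈ siegelSet := by
  rw [mem_siegelSet_iff]
  have := hd 0
  have := hd 1
  have := hd 2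
  refine ⟨?_, ?_, ?_⟩
  · simp [m1, dg]; positivity
  · simp [m2, dg]; positivity
  · simp [m3, dg]; positivity

/-- Every point is obtained from a diagonal point by a unipotent affine map. -/
theorem exists_decomp {z : E12} (hz : z ∈ siegelSet) :
    ∃ (n : Fin 3 → ℝ) (b : Fin 6 → ℝ) (d : Fin 3 → ℝ), (∀ i, 0 < d i) ∧
      z = aff (ut 1 n) b (dg d) := by
  rw [mem_siegelSet_iff] at hz
  obtain ⟨h1, h2, h3⟩ := hz
  refine ⟨![(z.2 1 * z.2 5 - z.2 2 * z.2 4) / m2 z, z.2 2 / m1 z, z.2 4 / m1 z], z.1,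
    ![m3 z / m2 z, m2 z / m1 z, m1 z], ?_, ?_⟩
  · intro i
    fin_cases i
    · exact div_pos h3 h2
    · exact div_pos h2 h1
    · exact h1
  · have n1 : m1 z ≠ 0 := h1.ne'
    have n2 : m2 z ≠ 0 := h2.ne'
    have hd1 : (dg ![m3 z / m2 z, m2 z / m1 z, m1 z]).1 = 0 := rfl
    apply Prod.ext
    · rw [aff_fst, hd1, map_zero, zero_add]
    · rw [aff_snd, act_ut]
      ext i
      fin_cases i <;> simp [dg] <;> (try field_simp) <;> unfold m1 <;> (try unfold m2) <;>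
        (try unfold m3) <;> (try ring)

end Pool.Agent.Lib.MP_08f71d_gt
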