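import Pool.Agent.Lib.MP_08f71d_gt.Fields

/-!
# Smooth families of affine maps and horizontal vectors
-/

set_option autoImplicit false

open scoped ContDiff Topology Matrix

namespace Pool.Agent.Lib.MP_08f71d_gt

attribute [local instance] Matrix.linftyOpNormedRing Matrix.linftyOpNormedAlgebra

/-- `ut` as a continuous linear map. -/
noncomputable def utL : ((Fin 3 → ℝ) × (Fin 3 → ℝ)) →L[ℝ] Matrix (Fin 3) (Fin 3) ℝ :=
  LinearMap.toContinuousLinearMap
    { toFun := fun p => ut p.1 p.2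
      map_add' := fun p q => by
        ext i j
        fin_cases i <;> fin_cases j <;> simp [ut]
      map_smul' := fun r p => by
        ext i j
        fin_cases i <;> fin_cases j <;> simp [ut] }

theorem utL_apply (p : (Fin 3 → ℝ) × (Fin 3 → ℝ)) : utL p = ut p.1 p.2 := rfl

/-- Transposition as a continuous linear map. -/
noncomputable def transL : Matrix (Fin 3) (Fin 3) ℝ →L[ℝ] Matrix (Fin 3) (Fin 3) ℝ :=
  LinearMap.toContinuousLinearMap
    { toFun := fun A => Aᵀ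
      map_add' := fun _ _ => Matrix.transpose_add _ _
      map_smul' := fun _ _ => Matrix.transpose_smul _ _ }

theorem transL_apply (A : Matrix (Fin 3) (Fin 3) ℝ) : transL A = Aᵀ := rfl

/-- `unsym` as a continuous linear map. -/
noncomputable def unsymL : Matrix (Fin 3) (Fin 3) ℝ →L[ℝ] (Fin 6 → ℝ) :=
  LinearMap.toContinuousLinearMap
    { toFun := unsym
      map_add' := fun A B => by
        ext i
        fin_cases i <;> simp [unsym]
      map_smul' := fun r A => by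
        ext i
        fin_cases i <;> simp [unsym] }

theorem unsymL_apply (A : Matrix (Fin 3) (Fin 3) ℝ) : unsymL A = unsym A := rfl

theorem act_eq (a n : Fin 3 → ℝ) (y : Fin 6 → ℝ) :
    act (ut a n) y = unsymL (utL (a, n) * symL y * transL (utL (a, n))) := rfl

theorem kill_eq' (a n : Fin 3 → ℝ) (y : Fin 6 → ℝ) :
    kill (ut a n) y = unsymL (utL (a, n) * symL y + symL y * transL (utL (a, n))) := rfl

theorem ut_one : ut 1 0 = 1 := by
  ext i j
  fin_cases i <;> fin_cases j <;> simp [ut]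

section
variable {F : Type} [NormedAddCommGroup F] [NormedSpace ℝ F]

theorem contDiffAt_act {a n : F → Fin 3 → ℝ} {y : F → Fin 6 → ℝ} {x : F}
    (ha : ContDiffAt ℝ ∞ a x) (hn : ContDiffAt ℝ ∞ n x) (hy : ContDiffAt ℝ ∞ y x) :
    ContDiffAt ℝ ∞ (fun p => act (ut (a p) (n p)) (y p)) x := by
  have h1 : ContDiffAt ℝ ∞ (fun p => utL (a p, n p)) x :=
    utL.contDiff.contDiffAt.comp x (ha.prodMk hn)
  have h2 : ContDiffAt ℝ ∞ (fun p => transL (utL (a p, n p))) x :=
    transL.contDiff.contDiffAt.comp x h1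
  have h3 : ContDiffAt ℝ ∞ (fun p => symL (y p)) x := symL.contDiff.contDiffAt.comp x hy
  exact unsymL.contDiff.contDiffAt.comp x ((h1.mul h3).mul h2)

theorem contDiffAt_kill {a n : F → Fin 3 → ℝ} {y : F → Fin 6 → ℝ} {x : F}
    (ha : ContDiffAt ℝ ∞ a x) (hn : ContDiffAt ℝ ∞ n x) (hy : ContDiffAt ℝ ∞ y x) :
    ContDiffAt ℝ ∞ (fun p => kill (ut (a p) (n p)) (y p)) x := by
  have h1 : ContDiffAt ℝ ∞ (fun p => utL (a p, n p)) x :=
    utL.contDiff.contDiffAt.comp x (ha.prodMk hn)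
  have h2 : ContDiffAt ℝ ∞ (fun p => transL (utL (a p, n p))) x :=
    transL.contDiff.contDiffAt.comp x h1
  have h3 : ContDiffAt ℝ ∞ (fun p => symL (y p)) x := symL.contDiff.contDiffAt.comp x hy
  exact unsymL.contDiff.contDiffAt.comp x ((h1.mul h3).add (h3.mul h2))

theorem contDiffAt_aff {a n : F → Fin 3 → ℝ} {b : F → Fin 6 → ℝ} {z : F → E12} {x : F}
    (ha : ContDiffAt ℝ ∞ a x) (hn : ContDiffAt ℝ ∞ n x) (hb : ContDiffAt ℝ ∞ b x)
    (hz : ContDiffAt ℝ ∞ z x) :
    ContDiffAt ℝ ∞ (fun p => aff (ut (a p) (n p)) (b p) (z p)) x := by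
  have h1 := contDiffAt_act ha hn hz.fst
  have h2 := contDiffAt_act ha hn hz.snd
  have h3 : (fun p => aff (ut (a p) (n p)) (b p) (z p)) = fun p =>
      (act (ut (a p) (n p)) (z p).1 + b p, act (ut (a p) (n p)) (z p).2) := by
    ext1 p
    apply Prod.ext
    · rw [aff_fst]
    · rw [aff_snd]
  rw [h3]
  exact (h1.add hb).prodMk h2

theorem contDiffAt_fld {w n : F → Fin 3 → ℝ} {b : F → Fin 6 → ℝ} {z : F → E12} {x : F}
    (hw : ContDiffAt ℝ ∞ w x) (hn : ContDiffAt ℝ ∞ n x) (hb : ContDiffAt ℝ ∞ b x)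
    (hz : ContDiffAt ℝ ∞ z x) :
    ContDiffAt ℝ ∞ (fun p => fld (w p) (n p) (b p) (z p)) x := by
  have hw' : ContDiffAt ℝ ∞ (fun p => fun i => w p i / 2) x := by
    rw [contDiffAt_pi] at hw ⊢
    intro i
    exact (hw i).div_const 2
  have h1 := contDiffAt_kill hw' hn hz.fst
  have h2 := contDiffAt_kill hw' hn hz.snd
  have h3 : (fun p => fld (w p) (n p) (b p) (z p)) = fun p =>
      (kill (ut (fun i => w p i / 2) (n p)) (z p).1 + b p,
        kill (ut (fun i => w p i / 2) (n p)) (z p).2) := by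
    ext1 p
    apply Prod.ext
    · rw [fld_fst]
    · rw [fld_snd]
  rw [h3]
  exact (h1.add hb).prodMk h2

end

theorem hasDerivAt_act {a n : ℝ → Fin 3 → ℝ} {a' n' : Fin 3 → ℝ} (ha : HasDerivAt a a' 0)
    (hn : HasDerivAt n n' 0) (ha0 : a 0 = 1) (hn0 : n 0 = 0) (y : Fin 6 → ℝ) :
    HasDerivAt (fun τ => act (ut (a τ) (n τ)) y) (kill (ut a' n') y) 0 := by
  have h1 : HasDerivAt (fun τ => utL (a τ, n τ)) (utL (a', n')) 0 :=
    utL.hasFDerivAt.comp_hasDerivAt 0 (ha.prodMk hn)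
  have h2 : HasDerivAt (fun τ => transL (utL (a τ, n τ))) (transL (utL (a', n'))) 0 :=
    transL.hasFDerivAt.comp_hasDerivAt 0 h1
  have h3 := unsymL.hasFDerivAt.comp_hasDerivAt 0 ((h1.mul_const (symL y)).mul h2)
  refine h3.congr_deriv ?_
  rw [kill_eq', ha0, hn0]
  have : utL (1, 0) = 1 := ut_one
  rw [this]
  simp only [mul_one, one_mul, transL_apply, Matrix.transpose_one]
  rfl

theorem hasDerivAt_aff_curve {ρ : ℝ → Fin 3 → ℝ} {w : Fin 3 → ℝ} (hρ : HasDerivAt ρ w 0)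
    (hρ0 : ρ 0 = 0) (n : Fin 3 → ℝ) (b : Fin 6 → ℝ) (z : E12) :
    HasDerivAt (fun τ : ℝ => aff (ut (fun i => Real.exp (ρ τ i / 2)) (τ • n)) (τ • b) z)
      (fld w n b z) 0 := by
  have h1 : HasDerivAt (fun τ : ℝ => fun i => Real.exp (ρ τ i / 2)) (fun i => w i / 2) 0 := by
    rw [hasDerivAt_pi]
    intro i
    have := (((hasDerivAt_pi.1 hρ) i).div_const 2).exp
    refine this.congr_deriv ?_
    simp [hρ0]
  have h2 : HasDerivAt (fun τ : ℝ => τ • n) n 0 := by
    simpa using (hasDerivAt_id (0 : ℝ)).smul_const n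
  have h3 : HasDerivAt (fun τ : ℝ => τ • b) b 0 := by
    simpa using (hasDerivAt_id (0 : ℝ)).smul_const b
  have e0 : (fun i => Real.exp (ρ 0 i / 2)) = (1 : Fin 3 → ℝ) := by
    ext i; simp [hρ0]
  have h4 := hasDerivAt_act h1 h2 e0 (by simp) z.1
  have h5 := hasDerivAt_act h1 h2 e0 (by simp) z.2
  have h6 : (fun τ : ℝ => aff (ut (fun i => Real.exp (ρ τ i / 2)) (τ • n)) (τ • b) z) =
      fun τ : ℝ => (act (ut (fun i => Real.exp (ρ τ i / 2)) (τ • n)) z.1 + τ • b,
        act (ut (fun i => Real.exp (ρ τ i / 2)) (τ • n)) z.2) := by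
    ext1 τ
    apply Prod.ext
    · rw [aff_fst]
    · rw [aff_snd]
  rw [h6]
  refine ((h4.add h3).prodMk h5).congr_deriv ?_
  apply Prod.ext
  · rw [fld_fst]
  · rw [fld_snd]

/-- A vector orthogonal to the kernel of the projection pairs with every vector through the
projection. -/
theorem horizontal {z : E12} (hz : z ∈ siegelSet) {h : E12}
    (hh : ∀ k, fderiv ℝ tm z k = 0 → siegelMetric z h k = 0) (v : E12) :
    siegelMetric z h v = fderiv ℝ tm z h 0 * fderiv ℝ tm z v 0 +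
      fderiv ℝ tm z h 1 * fderiv ℝ tm z v 1 + fderiv ℝ tm z h 2 * fderiv ℝ tm z v 2 := by
  obtain ⟨n, b, d, hd, hzd⟩ := exists_decomp hz
  have hdm : dg d ∈ siegelSet := dg_mem hd
  have hu : IsUnit (ut 1 n).det := isUnit_det_ut 1 n (by simp)
  -- the derivative of the projection is transported
  have htr : ∀ k, fderiv ℝ tm z (actE (ut 1 n) k) = fderiv ℝ tm (dg d) k := by
    intro k
    have h1 : HasFDerivAt tm (fderiv ℝ tm z) (aff (ut 1 n) b (dg d)) := by
      rw [← hzd]; exact hasFDerivAt_tm hz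
    have h2 := h1.comp (dg d) (hasFDerivAt_aff (ut 1 n) b (dg d))
    have h3 : tm ∘ aff (ut 1 n) b = tm := by
      ext1 x
      exact tm_unip n b x
    rw [h3] at h2
    rw [h2.fderiv]
    rfl
  have hmet : ∀ k l, siegelMetric z (actE (ut 1 n) k) (actE (ut 1 n) l) =
      siegelMetric (dg d) k l := by
    intro k l
    rw [hzd]
    exact siegelMetric_aff hu b _ _ _
  obtain ⟨h', rfl⟩ : ∃ h', h = actE (ut 1 n) h' := ⟨_, (actE_inv_right hu h).symm⟩
  obtain ⟨v', rfl⟩ : ∃ v', v = actE (ut 1 n) v' := ⟨_, (actE_inv_right hu v).symm⟩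
  rw [htr, htr, hmet]
  have hh' : ∀ k, fderiv ℝ tm (dg d) k = 0 → siegelMetric (dg d) h' k = 0 := by
    intro k hk
    rw [← hmet]
    exact hh _ (by rw [htr]; exact hk)
  have hder : ∀ k : E12, fderiv ℝ tm (dg d) k = ![k.2 0 / d 0, k.2 3 / d 1, k.2 5 / d 2] := by
    intro k
    have h0 := (hd 0).ne'
    have h1 := (hd 1).ne'
    have h2 := (hd 2).ne'
    rw [fderiv_tm hdm]
    unfold dm1 dm2 dm3 m1 m2 m3
    ext i
    fin_cases i <;> simp [dg] <;> field_simp <;> ring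
  have h0 := (hd 0).ne'
  have h1 := (hd 1).ne'
  have h2 := (hd 2).ne'
  -- the offdiagonal and real components of h' vanish
  have hk : ∀ k : E12, k.2 0 = 0 → k.2 3 = 0 → k.2 5 = 0 →
      dq d h'.1 k.1 + dq d h'.2 k.2 = 0 := by
    intro k k0 k3 k5
    rw [← siegelMetric_dg hd]
    apply hh'
    rw [hder, k0, k3, k5]
    ext i
    fin_cases i <;> simp
  have hX : h'.1 = 0 := by
    have := hk (h'.1, 0) rfl rfl rfl
    apply dq_eq_zero hd
    have e : dq d h'.2 0 = 0 := by simp [dq]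
    simpa [e] using this
  have hY : h'.2 1 = 0 ∧ h'.2 2 = 0 ∧ h'.2 4 = 0 := by
    have := hk (0, ![0, h'.2 1, h'.2 2, 0, h'.2 4, 0]) rfl rfl rfl
    have e : dq d ![0, h'.2 1, h'.2 2, 0, h'.2 4, 0] ![0, h'.2 1, h'.2 2, 0, h'.2 4, 0] = 0 := by
      have h9 : dq d h'.1 0 + dq d h'.2 ![0, h'.2 1, h'.2 2, 0, h'.2 4, 0] = 0 := this
      simp only [dq] at h9 ⊢
      simp at h9 ⊢
      linarith
    have := dq_eq_zero hd e
    exact ⟨congrFun this 1, congrFun this 2, congrFun this 4⟩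
  obtain ⟨y1, y2, y4⟩ := hY
  rw [siegelMetric_dg hd, hder, hder, hX]
  unfold dq
  rw [y1, y2, y4]
  simp
  field_simp

end Pool.Agent.Lib.MP_08f71d_gt
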