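import Mathlib

/-!
# Definitions

Riemannian metrics on open subsets of real normed spaces, geodesics, isometries, singular
Riemannian foliations, flat sections, hyperpolar foliations, and the Siegel upper half space of
degree three.
-/

set_option autoImplicit false

open scoped ContDiff Topology Matrix

namespace Pool.Agent.Lib.MP_08f71d_gt

/-- A smooth Riemannian metric on an open subset `carrier` of a real normed space: `metric x v w`
is the inner product of the tangent vectors `v` and `w` at the point `x`. -/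
structure RiemannianDomain (E : Type) [NormedAddCommGroup E] [NormedSpace ℝ E] where
  /-- the underlying open set -/
  carrier : Set E
  /-- the metric -/
  metric : E → E → E → ℝ
  isOpen : IsOpen carrier
  metric_add : ∀ x v w z, metric x (v + w) z = metric x v z + metric x w z
  metric_smul : ∀ (x : E) (a : ℝ) (v z : E), metric x (a • v) z = a * metric x v z
  metric_symm : ∀ x v w, metric x v w = metric x w v
  metric_pos : ∀ x ∈ carrier, ∀ v, v ≠ 0 → 0 < metric x v v
  smooth : ∀ v w, ContDiffOn ℝ ∞ (fun x => metric x v w) carrier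

variable {E : Type} [NormedAddCommGroup E] [NormedSpace ℝ E]

/-- `c` is a geodesic defined on the whole real line: it satisfies the geodesic equation
`(d/dt) g_c(c', w) = (1/2) (∂_w g)_c(c', c')` for all constant vectors `w`. -/
def IsGeodesic (M : RiemannianDomain E) (c : ℝ → E) : Prop :=
  ContDiff ℝ ∞ c ∧ (∀ t, c t ∈ M.carrier) ∧ ∀ (t : ℝ) (w : E),
    HasDerivAt (fun s => M.metric (c s) (deriv c s) w)
      (1 / 2 * fderiv ℝ (fun x => M.metric x (deriv c t) (deriv c t)) (c t) w) t

/-- `h` is a smooth map of the Riemannian domain into itself which preserves the metric. -/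
def PreservesMetric (M : RiemannianDomain E) (h : E → E) : Prop :=
  ContDiffOn ℝ ∞ h M.carrier ∧ (∀ x ∈ M.carrier, h x ∈ M.carrier) ∧
    ∀ x ∈ M.carrier, ∀ v w, M.metric (h x) (fderiv ℝ h x v) (fderiv ℝ h x w) = M.metric x v w

/-- The tangent vectors at `p` of a subset `L`: velocities of smooth curves in `L` through `p`. -/
def tangentVectors (L : Set E) (p : E) : Set E :=
  {v | ∃ c : ℝ → E, ContDiff ℝ ∞ c ∧ c 0 = p ∧ deriv c 0 = v ∧ ∀ᶠ t in 𝓝 (0 : ℝ), c t ∈ L}

/-- `L` is an embedded smooth submanifold of codimension `k`: near each of its points it is the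
zero set of a smooth submersion to `ℝ^k`. -/
def IsSubmanifold (k : ℕ) (L : Set E) : Prop :=
  ∀ p ∈ L, ∃ (V : Set E) (f : E → Fin k → ℝ), IsOpen V ∧ p ∈ V ∧ ContDiffOn ℝ ∞ f V ∧
    (∀ x ∈ V, Function.Surjective (fderiv ℝ f x)) ∧ L ∩ V = {x ∈ V | f x = 0}

/-- `v` is orthogonal at `x` to the leaf `leaf x`. -/
def OrthogonalToLeaf (M : RiemannianDomain E) (leaf : E → Set E) (x v : E) : Prop :=
  ∀ w ∈ tangentVectors (leaf x) x, M.metric x v w = 0

/-- `leaf` is a singular Riemannian foliation of the Riemannian domain `M` with closed embedded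
leaves (`leaf x` is the leaf through `x`): the leaves are connected, closed in `M`, embedded
submanifolds which form a partition; every tangent vector of a leaf is the value of a smooth vector
field tangent to all leaves; every geodesic orthogonal to a leaf at one point is orthogonal to all
leaves it meets. -/
structure IsSingularRiemannianFoliation (M : RiemannianDomain E) (leaf : E → Set E) : Prop where
  self_mem : ∀ x ∈ M.carrier, x ∈ leaf x
  subset : ∀ x ∈ M.carrier, leaf x ⊆ M.carrier
  eq_of_mem : ∀ x ∈ M.carrier, ∀ y ∈ leaf x, leaf y = leaf x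
  connected : ∀ x ∈ M.carrier, IsConnected (leaf x)
  closed : ∀ x ∈ M.carrier, closure (leaf x) ∩ M.carrier ⊆ leaf x
  submanifold : ∀ x ∈ M.carrier, ∃ k, IsSubmanifold k (leaf x)
  transitive : ∀ x ∈ M.carrier, ∀ v ∈ tangentVectors (leaf x) x, ∃ X : E → E,
    ContDiffOn ℝ ∞ X M.carrier ∧ (∀ y ∈ M.carrier, X y ∈ tangentVectors (leaf y) y) ∧ X x = v
  orthogonal : ∀ c : ℝ → E, IsGeodesic M c → ∀ s : ℝ, OrthogonalToLeaf M leaf (c s) (deriv c s) →
    ∀ t : ℝ, OrthogonalToLeaf M leaf (c t) (deriv c t)

/-- `σ` parametrizes a complete flat totally geodesic submanifold of dimension `k` (it is an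
isometric immersion of Euclidean space which maps straight lines to geodesics) which meets every
leaf, and always orthogonally. -/
structure IsFlatSection (M : RiemannianDomain E) (leaf : E → Set E) {k : ℕ}
    (σ : EuclideanSpace ℝ (Fin k) → E) : Prop where
  smooth : ContDiff ℝ ∞ σ
  mem : ∀ z, σ z ∈ M.carrier
  isometric : ∀ z v w, M.metric (σ z) (fderiv ℝ σ z v) (fderiv ℝ σ z w) = inner ℝ v w
  geodesic : ∀ z v, IsGeodesic M (fun t : ℝ => σ (z + t • v))
  meets : ∀ y ∈ M.carrier, ∃ z, σ z ∈ leaf y
  orthogonal : ∀ z v, OrthogonalToLeaf M leaf (σ z) (fderiv ℝ σ z v)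

/-- `leaf` is a hyperpolar foliation of codimension `k`: a singular Riemannian foliation all of
whose leaves have codimension at least `k`, one of them exactly `k`, with a flat section of
dimension `k` through every point. -/
structure IsHyperpolar (M : RiemannianDomain E) (leaf : E → Set E) (k : ℕ) : Prop where
  foliation : IsSingularRiemannianFoliation M leaf
  codim_ge : ∀ x ∈ M.carrier, ∃ j, k ≤ j ∧ IsSubmanifold j (leaf x)
  codim_eq : ∃ x ∈ M.carrier, IsSubmanifold k (leaf x)
  sections : ∀ x ∈ M.carrier, ∃ σ : EuclideanSpace ℝ (Fin k) → E, σ 0 = x ∧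
    IsFlatSection M leaf σ

/-- The leaves are the orbits of a set `H` of isometries. -/
def LeavesAreOrbits (M : RiemannianDomain E) (leaf : E → Set E) : Prop :=
  ∃ H : Set (E → E), (∀ h ∈ H, PreservesMetric M h) ∧
    ∀ x ∈ M.carrier, leaf x = {y | ∃ h ∈ H, y = h x}

/-- The symmetric 3 x 3 matrix with upper triangular entries `a 0, ..., a 5`. -/
def sym (a : Fin 6 → ℝ) : Matrix (Fin 3) (Fin 3) ℝ :=
  !![a 0, a 1, a 2; a 1, a 3, a 4; a 2, a 4, a 5]

/-- The twelve-dimensional space of complex symmetric 3 x 3 matrices `X + iY`, written as pairs of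
real symmetric matrices. -/
abbrev E12 : Type := (Fin 6 → ℝ) × (Fin 6 → ℝ)

/-- The Siegel upper half space of degree 3: all `X + iY` with `Y` positive definite. -/
def siegelSet : Set E12 := {p | (sym p.2).PosDef}

/-- The invariant metric `tr (Y⁻¹ dX Y⁻¹ dX) + tr (Y⁻¹ dY Y⁻¹ dY)`. -/
noncomputable def siegelMetric (p v w : E12) : ℝ :=
  ((sym p.2)⁻¹ * sym v.1 * (sym p.2)⁻¹ * sym w.1).trace +
    ((sym p.2)⁻¹ * sym v.2 * (sym p.2)⁻¹ * sym w.2).trace

end Pool.Agent.Lib.MP_08f71d_gt
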