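import Pool.Agent.Lib.MP_08f71d_gt.Proj

/-!
# Affine Killing fields and horizontal vectors
-/

set_option autoImplicit false

open scoped ContDiff Topology Matrix

namespace Pool.Agent.Lib.MP_08f71d_gt

/-- The infinitesimal action of a matrix on symmetric matrices. -/
def kill (η : Matrix (Fin 3) (Fin 3) ℝ) : (Fin 6 → ℝ) →ₗ[ℝ] (Fin 6 → ℝ) where
  toFun a := unsym (η * sym a + sym a * ηᵀ)
  map_add' a b := by
    rw [sym_add, Matrix.mul_add, Matrix.add_mul]
    ext i
    fin_cases i <;> simp [unsym] <;> ring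
  map_smul' r a := by
    rw [sym_smul, Matrix.mul_smul, Matrix.smul_mul]
    ext i
    fin_cases i <;> simp [unsym] <;> ring

theorem sym_kill (η : Matrix (Fin 3) (Fin 3) ℝ) (a : Fin 6 → ℝ) :
    sym (kill η a) = η * sym a + sym a * ηᵀ := by
  apply sym_unsym
  rw [Matrix.transpose_add, Matrix.transpose_mul, Matrix.transpose_mul, sym_transpose,
    Matrix.transpose_transpose, add_comm]

theorem kill_ut (a n : Fin 3 → ℝ) (y : Fin 6 → ℝ) :
    kill (ut a n) y = ![2 * (a 0 * y 0 + n 0 * y 1 + n 1 * y 2),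
      a 0 * y 1 + n 0 * y 3 + n 1 * y 4 + a 1 * y 1 + n 2 * y 2,
      a 0 * y 2 + n 0 * y 4 + n 1 * y 5 + a 2 * y 2,
      2 * (a 1 * y 3 + n 2 * y 4),
      a 1 * y 4 + n 2 * y 5 + a 2 * y 4, 2 * (a 2 * y 5)] := by
  show unsym _ = _
  unfold unsym
  simp only [Matrix.add_apply, Matrix.mul_apply, Matrix.transpose_apply, Fin.sum_univ_three]
  ext i
  fin_cases i <;> simp [ut, sym] <;> ring

/-- The infinitesimal action on pairs. -/
noncomputable def killE (η : Matrix (Fin 3) (Fin 3) ℝ) : E12 →L[ℝ] E12 :=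
  ((kill η).prodMap (kill η)).toContinuousLinearMap

theorem killE_apply (η : Matrix (Fin 3) (Fin 3) ℝ) (z : E12) :
    killE η z = (kill η z.1, kill η z.2) := rfl

theorem kill_eq (η : Matrix (Fin 3) (Fin 3) ℝ) (b : Fin 6 → ℝ) {x : E12} (hx : x ∈ siegel.carrier)
    (v : E12) :
    fderiv ℝ (form siegel) x (killE η x + (b, 0)) v v +
      2 * siegel.metric x v (killE η v) = 0 := by
  have hx' : x ∈ siegelSet := hx
  rw [fderiv_form_siegel hx']
  have hdet : IsUnit (sym x.2).det := (Matrix.isUnit_iff_isUnit_det _).1 (siegel_isUnit hx')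
  have e1 : sym (killE η x + ((b, 0) : E12)).2 = η * sym x.2 + sym x.2 * ηᵀ := by
    rw [killE_apply, Prod.snd_add]
    simp only [add_zero]
    rw [sym_kill]
  have e2 : ∀ V : Matrix (Fin 3) (Fin 3) ℝ,
      ((sym x.2)⁻¹ * (η * sym x.2 + sym x.2 * ηᵀ) * (sym x.2)⁻¹ * V * (sym x.2)⁻¹ * V).trace =
      ((sym x.2)⁻¹ * V * (sym x.2)⁻¹ * (η * V + V * ηᵀ)).trace := by
    intro V
    have f1 : (sym x.2)⁻¹ * (η * sym x.2 + sym x.2 * ηᵀ) * (sym x.2)⁻¹ =
        (sym x.2)⁻¹ * η + ηᵀ * (sym x.2)⁻¹ := by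
      rw [Matrix.mul_add, Matrix.add_mul, ← Matrix.mul_assoc,
        Matrix.mul_nonsing_inv_cancel_right _ _ hdet, ← Matrix.mul_assoc,
        Matrix.nonsing_inv_mul _ hdet, Matrix.one_mul]
    rw [f1, Matrix.add_mul, Matrix.add_mul, Matrix.add_mul, Matrix.mul_add, Matrix.trace_add,
      Matrix.trace_add]
    congr 1
    · rw [Matrix.mul_assoc ((sym x.2)⁻¹ * η * V), Matrix.trace_mul_comm]
      simp only [Matrix.mul_assoc]
    · simp only [Matrix.mul_assoc]
      rw [Matrix.trace_mul_comm]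
      simp only [Matrix.mul_assoc]
  have e3 : ∀ V : Matrix (Fin 3) (Fin 3) ℝ,
      ((sym x.2)⁻¹ * V * (sym x.2)⁻¹ * (η * sym x.2 + sym x.2 * ηᵀ) * (sym x.2)⁻¹ * V).trace =
      ((sym x.2)⁻¹ * V * (sym x.2)⁻¹ * (η * V + V * ηᵀ)).trace := by
    intro V
    rw [← e2 V]
    have : (sym x.2)⁻¹ * V * (sym x.2)⁻¹ * (η * sym x.2 + sym x.2 * ηᵀ) * (sym x.2)⁻¹ * V =
      ((sym x.2)⁻¹ * V) * ((sym x.2)⁻¹ * (η * sym x.2 + sym x.2 * ηᵀ) * (sym x.2)⁻¹ * V) := by
      simp only [Matrix.mul_assoc]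
    rw [this, Matrix.trace_mul_comm]
    simp only [Matrix.mul_assoc]
  rw [e1, e2, e2, e3, e3]
  show _ + 2 * siegelMetric x v (killE η v) = 0
  unfold siegelMetric
  rw [killE_apply]
  simp only [sym_kill]
  ring

/-- The affine Killing field attached to an upper triangular matrix and a translation. -/
noncomputable def fld (w n : Fin 3 → ℝ) (b : Fin 6 → ℝ) (z : E12) : E12 :=
  killE (ut (fun i => w i / 2) n) z + (b, 0)

theorem fld_noether {c : ℝ → E12} (hc : IsGeodesic siegel c) (w n : Fin 3 → ℝ) (b : Fin 6 → ℝ)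
    (s t : ℝ) :
    siegelMetric (c s) (deriv c s) (fld w n b (c s)) =
      siegelMetric (c t) (deriv c t) (fld w n b (c t)) :=
  hc.noether (killE (ut (fun i => w i / 2) n)) (b, 0) (fun _ hx v => kill_eq _ b hx v) s t

theorem fld_fst (w n : Fin 3 → ℝ) (b : Fin 6 → ℝ) (z : E12) :
    (fld w n b z).1 = kill (ut (fun i => w i / 2) n) z.1 + b := by
  simp [fld, killE_apply]

theorem fld_snd (w n : Fin 3 → ℝ) (b : Fin 6 → ℝ) (z : E12) :
    (fld w n b z).2 = kill (ut (fun i => w i / 2) n) z.2 := by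
  simp [fld, killE_apply]

/-- The projection of a field. -/
theorem fderiv_tm_fld {z : E12} (hz : z ∈ siegelSet) (w n : Fin 3 → ℝ) (b : Fin 6 → ℝ) :
    fderiv ℝ tm z (fld w n b z) = w := by
  obtain ⟨p1, p2, p3⟩ := (mem_siegelSet_iff z).1 hz
  rw [fderiv_tm hz]
  have e1 : dm1 z (fld w n b z) = w 2 * m1 z := by
    unfold dm1 m1
    rw [fld_snd, kill_ut]
    simp
    ring
  have e2 : dm2 z (fld w n b z) = (w 1 + w 2) * m2 z := by
    unfold dm2 m2
    rw [fld_snd, kill_ut]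
    simp
    ring
  have e3 : dm3 z (fld w n b z) = (w 0 + w 1 + w 2) * m3 z := by
    unfold dm3 m3
    rw [fld_snd, kill_ut]
    simp
    ring
  rw [e1, e2, e3, mul_div_cancel_right₀ _ p1.ne', mul_div_cancel_right₀ _ p2.ne',
    mul_div_cancel_right₀ _ p3.ne']
  ext i
  fin_cases i <;> simp

/-- Every tangent vector is a value of one of the fields. -/
theorem exists_fld {z : E12} (hz : z ∈ siegelSet) (v : E12) :
    ∃ (n : Fin 3 → ℝ) (b : Fin 6 → ℝ), v = fld (fderiv ℝ tm z v) n b z := by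
  obtain ⟨p1, p2, p3⟩ := (mem_siegelSet_iff z).1 hz
  set w := fderiv ℝ tm z v with hw
  set u : E12 := v - fld w 0 0 z with hu
  have hu0 : fderiv ℝ tm z u = 0 := by
    rw [hu, map_sub, fderiv_tm_fld hz, ← hw, sub_self]
  rw [fderiv_tm hz] at hu0
  have q1 : dm1 z u / m1 z = 0 := congrFun hu0 2
  have q2 : dm2 z u / m2 z - dm1 z u / m1 z = 0 := congrFun hu0 1
  have q3 : dm3 z u / m3 z - dm2 z u / m2 z = 0 := congrFun hu0 0
  have r1 : dm1 z u = 0 := by
    rcases div_eq_zero_iff.1 q1 with h | h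
    · exact h
    · exact absurd h p1.ne'
  have r2 : dm2 z u = 0 := by
    rw [r1, zero_div, sub_zero] at q2
    rcases div_eq_zero_iff.1 q2 with h | h
    · exact h
    · exact absurd h p2.ne'
  have r3 : dm3 z u = 0 := by
    rw [r2, zero_div, sub_zero] at q3
    rcases div_eq_zero_iff.1 q3 with h | h
    · exact h
    · exact absurd h p3.ne'
  set n : Fin 3 → ℝ := ![(z.2 5 * (u.2 1 - u.2 4 / z.2 5 * z.2 2) - z.2 4 * u.2 2) / m2 z,
    (z.2 3 * u.2 2 - z.2 4 * (u.2 1 - u.2 4 / z.2 5 * z.2 2)) / m2 z, u.2 4 / z.2 5] with hn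
  have hn2 : kill (ut 0 n) z.2 = u.2 := by
    have n1 : z.2 5 ≠ 0 := p1.ne'
    have n2 : m2 z ≠ 0 := p2.ne'
    unfold dm1 at r1
    unfold dm2 at r2
    unfold dm3 at r3
    rw [kill_ut, hn]
    ext i
    fin_cases i
    · simp
      field_simp
      unfold m2
      linear_combination (-z.2 5) * r3 + (z.2 0 * z.2 5 - z.2 2 ^ 2) * r2 +
        (z.2 2 ^ 2 * z.2 3 - z.2 5 * z.2 1 ^ 2) * r1
    · simp
      field_simp
      unfold m2
      ring
    · simp
      field_simp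
      unfold m2
      ring
    · simp
      field_simp
      rw [r1] at r2
      linear_combination -r2
    · simp
      field_simp
    · simp [r1]
  refine ⟨n, v.1 - kill (ut (fun i => w i / 2) n) z.1, ?_⟩
  apply Prod.ext
  · rw [fld_fst]
    abel
  · rw [fld_snd]
    have e : v.2 = u.2 + kill (ut (fun i => w i / 2) 0) z.2 := by
      rw [hu, Prod.snd_sub, fld_snd]
      abel
    rw [e, ← hn2, kill_ut, kill_ut, kill_ut]
    ext i
    fin_cases i <;> simp <;> ring

end Pool.Agent.Lib.MP_08f71d_gt
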