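import Pool.Agent.Lib.MP_08f71d_gt.Leaves

/-!
# The leaves form a singular Riemannian foliation
-/

set_option autoImplicit false

open scoped ContDiff Topology Matrix

namespace Pool.Agent.Lib.MP_08f71d_gt

theorem leaf_self_mem {x : E12} (hx : x ∈ siegelSet) : x ∈ leaf x := ⟨hx, rfl, rfl⟩

theorem leaf_eq {x y : E12} (hy : y ∈ leaf x) : leaf y = leaf x := by
  ext z
  unfold leaf
  rw [hy.2.1, hy.2.2]

theorem continuousAt_tm {x : E12} (hx : x ∈ siegelSet) : ContinuousAt tm x :=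
  (contDiffAt_tm hx).continuousAt

theorem contDiffAt_tm_apply {x : E12} (hx : x ∈ siegelSet) (i : Fin 3) :
    ContDiffAt ℝ ∞ (fun z => tm z i) x := (contDiffAt_pi.1 (contDiffAt_tm hx)) i

theorem contDiffAt_F1 {x : E12} (hx : x ∈ siegelSet) : ContDiffAt ℝ ∞ F1 x :=
  (((contDiffAt_tm_apply hx 0).pow 2).add ((contDiffAt_tm_apply hx 1).pow 2)).add
    ((contDiffAt_tm_apply hx 2).pow 2)

theorem contDiffAt_F2 {x : E12} (hx : x ∈ siegelSet) : ContDiffAt ℝ ∞ F2 x :=
  ((contDiffAt_const.mul (contDiffAt_tm_apply hx 0)).add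
    (contDiffAt_const.mul (contDiffAt_tm_apply hx 1))).add (contDiffAt_tm_apply hx 2)

theorem hasFDerivAt_tm_apply {y : E12} (hy : y ∈ siegelSet) (i : Fin 3) :
    HasFDerivAt (fun z => tm z i) ((ContinuousLinearMap.proj i).comp (fderiv ℝ tm y)) y :=
  (hasFDerivAt_pi'.1 (hasFDerivAt_tm hy)) i

theorem fderiv_F1 {y : E12} (hy : y ∈ siegelSet) (v : E12) :
    fderiv ℝ F1 y v = 2 * (tm y 0 * fderiv ℝ tm y v 0 + tm y 1 * fderiv ℝ tm y v 1 +
      tm y 2 * fderiv ℝ tm y v 2) := by
  have h : HasFDerivAt F1 _ y := (((hasFDerivAt_tm_apply hy 0).pow 2).add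
    ((hasFDerivAt_tm_apply hy 1).pow 2)).add ((hasFDerivAt_tm_apply hy 2).pow 2)
  rw [h.fderiv]
  simp
  ring

theorem fderiv_F2 {y : E12} (hy : y ∈ siegelSet) (v : E12) :
    fderiv ℝ F2 y v = 3 * fderiv ℝ tm y v 0 + 2 * fderiv ℝ tm y v 1 + fderiv ℝ tm y v 2 := by
  have h : HasFDerivAt F2 _ y := (((hasFDerivAt_tm_apply hy 0).const_mul 3).add
    ((hasFDerivAt_tm_apply hy 1).const_mul 2)).add (hasFDerivAt_tm_apply hy 2)
  rw [h.fderiv]
  simp

theorem leaf_connected (x : E12) : IsConnected (leaf x) := by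
  have himg : leaf x = (fun p : ℝ × (Fin 3 → ℝ) × (Fin 6 → ℝ) =>
      aff (ut 1 p.2.1) p.2.2 (dg fun i => Real.exp (circ (tm x) p.1 i))) '' Set.univ := by
    ext y
    constructor
    · rintro ⟨hy, h1, h2⟩
      obtain ⟨θ, hθ⟩ := exists_circ (s := tm y) (t := tm x) h1 h2
      obtain ⟨n, b, hnb⟩ := exists_decomp' hy
      refine ⟨(θ, n, b), Set.mem_univ _, ?_⟩
      simp only
      rw [hθ]
      exact hnb.symm
    · rintro ⟨⟨θ, n, b⟩, -, rfl⟩
      simp only
      refine ⟨aff_mem _ _ (by simp) _ (dg_mem fun i => Real.exp_pos _), ?_, ?_⟩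
      · unfold F1
        rw [tm_unip, tm_dg, circ_norm]
      · unfold F2
        rw [tm_unip, tm_dg, circ_dot]
  rw [himg]
  apply isConnected_univ.image
  apply Continuous.continuousOn
  have h : ContDiff ℝ ∞ (fun p : ℝ × (Fin 3 → ℝ) × (Fin 6 → ℝ) =>
      aff (ut 1 p.2.1) p.2.2 (dg fun i => Real.exp (circ (tm x) p.1 i))) := by
    rw [contDiff_iff_contDiffAt]
    intro p
    refine contDiffAt_aff contDiffAt_const contDiff_snd.fst.contDiffAt
      contDiff_snd.snd.contDiffAt ?_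
    have hc : ∀ i, ContDiff ℝ ∞ (fun p : ℝ × (Fin 3 → ℝ) × (Fin 6 → ℝ) =>
        Real.exp (circ (tm x) p.1 i)) := fun i =>
      ((contDiff_pi.1 (contDiff_circ (tm x)) i).comp contDiff_fst).exp
    have hdg : ContDiff ℝ ∞ (fun p : ℝ × (Fin 3 → ℝ) × (Fin 6 → ℝ) =>
        dg fun i => Real.exp (circ (tm x) p.1 i)) := by
      refine contDiff_const.prodMk ?_
      rw [contDiff_pi]
      intro i
      fin_cases i
      · exact hc 0
      · exact contDiff_const
      · exact contDiff_const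
      · exact hc 1
      · exact contDiff_const
      · exact hc 2
    exact hdg.contDiffAt
  exact h.continuous

theorem leaf_closed {x : E12} : closure (leaf x) ∩ siegelSet ⊆ leaf x := by
  rintro y ⟨hy, hyS⟩
  have key : ∀ F : E12 → ℝ, ContinuousAt F y → (∀ z ∈ leaf x, F z = F x) → F y = F x := by
    intro F hF hFx
    by_contra hne
    have h1 : ∀ᶠ z in 𝓝 y, F z ≠ F x := hF.eventually_ne hne
    obtain ⟨z, hz1, hz2⟩ := (mem_closure_iff_frequently.1 hy).and_eventually h1 |>.exists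
    exact hz2 (hFx z hz1)
  exact ⟨hyS, key F1 (contDiffAt_F1 hyS).continuousAt fun z hz => hz.2.1,
    key F2 (contDiffAt_F2 hyS).continuousAt fun z hz => hz.2.2⟩

theorem leaf_submanifold_two {x : E12} (hr : rot (tm x) ≠ 0) :
    IsSubmanifold 2 (leaf x) := by
  intro p hp
  set V : Set E12 := {y | y ∈ siegelSet ∧ 14 * F1 y - F2 y ^ 2 ≠ 0} with hV
  have hVo : IsOpen V := by
    rw [isOpen_iff_mem_nhds]
    rintro y ⟨hy1, hy2⟩
    have hc : ContinuousAt (fun y => 14 * F1 y - F2 y ^ 2) y :=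
      ((contDiffAt_const.mul (contDiffAt_F1 hy1)).sub ((contDiffAt_F2 hy1).pow 2)).continuousAt
    filter_upwards [isOpen_siegelSet.mem_nhds hy1, hc.eventually_ne hy2] with z h1 h2
    exact ⟨h1, h2⟩
  have hxV : 14 * F1 x - F2 x ^ 2 ≠ 0 := fun h => hr ((rot_eq_zero_iff _).2 h)
  refine ⟨V, fun y => ![F1 y - F1 x, F2 y - F2 x], hVo, ⟨hp.1, ?_⟩, ?_, ?_, ?_⟩
  · rw [hp.2.1, hp.2.2]
    exact hxV
  · intro y hy
    apply ContDiffAt.contDiffWithinAt
    rw [contDiffAt_pi]
    intro i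
    fin_cases i
    · exact (contDiffAt_F1 hy.1).sub contDiffAt_const
    · exact (contDiffAt_F2 hy.1).sub contDiffAt_const
  · rintro y ⟨hy, hyn⟩ q
    have hyn' : 14 * (tm y 0 ^ 2 + tm y 1 ^ 2 + tm y 2 ^ 2) -
        (3 * tm y 0 + 2 * tm y 1 + tm y 2) ^ 2 ≠ 0 := hyn
    set N := tm y 0 ^ 2 + tm y 1 ^ 2 + tm y 2 ^ 2 with hN
    set P := 3 * tm y 0 + 2 * tm y 1 + tm y 2 with hP
    set α := (14 * (q 0 / 2) - P * q 1) / (14 * N - P ^ 2) with hα
    set β := (N * q 1 - P * (q 0 / 2)) / (14 * N - P ^ 2) with hβ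
    set w : Fin 3 → ℝ := ![α * tm y 0 + 3 * β, α * tm y 1 + 2 * β, α * tm y 2 + β] with hw
    refine ⟨fld w 0 0 y, ?_⟩
    have hfd : DifferentiableAt ℝ (fun y => ![F1 y - F1 x, F2 y - F2 x]) y := by
      apply ContDiffAt.differentiableAt (n := ∞) _ (by simp)
      rw [contDiffAt_pi]
      intro i
      fin_cases i
      · exact (contDiffAt_F1 hy).sub contDiffAt_const
      · exact (contDiffAt_F2 hy).sub contDiffAt_const
    have hd := hasFDerivAt_pi'.1 hfd.hasFDerivAt
    have hval := fderiv_tm_fld hy w 0 0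
    have hF1 : HasFDerivAt F1 (fderiv ℝ F1 y) y :=
      ((contDiffAt_F1 hy).differentiableAt (by simp)).hasFDerivAt
    have hF2 : HasFDerivAt F2 (fderiv ℝ F2 y) y :=
      ((contDiffAt_F2 hy).differentiableAt (by simp)).hasFDerivAt
    have e0 := (hd 0).unique (hF1.sub_const (F1 x))
    have e1 := (hd 1).unique (hF2.sub_const (F2 x))
    have g0 := DFunLike.congr_fun e0 (fld w 0 0 y)
    have g1 := DFunLike.congr_fun e1 (fld w 0 0 y)
    rw [fderiv_F1 hy, hval] at g0
    rw [fderiv_F2 hy, hval] at g1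
    ext i
    fin_cases i
    · refine Eq.trans g0 ?_
      show _ = q 0
      rw [hw]
      simp only [Matrix.cons_val_zero, Matrix.cons_val_one, Matrix.cons_val]
      have : 2 * (tm y 0 * (α * tm y 0 + 3 * β) + tm y 1 * (α * tm y 1 + 2 * β) +
        tm y 2 * (α * tm y 2 + β)) = 2 * (α * N + β * P) := by
        rw [hN, hP]; ring
      rw [this, hα, hβ]
      field_simp
      ring
    · refine Eq.trans g1 ?_
      show _ = q 1
      rw [hw]
      simp only [Matrix.cons_val_zero, Matrix.cons_val_one, Matrix.cons_val]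
      have : 3 * (α * tm y 0 + 3 * β) + 2 * (α * tm y 1 + 2 * β) + (α * tm y 2 + β) =
          α * P + 14 * β := by
        rw [hP]; ring
      rw [this, hα, hβ]
      field_simp
      ring
  · ext y
    constructor
    · rintro ⟨⟨h1, h2, h3⟩, hyV⟩
      refine ⟨hyV, ?_⟩
      show ![F1 y - F1 x, F2 y - F2 x] = 0
      rw [h2, h3]
      simp
    · rintro ⟨hyV, hy⟩
      have e1 : F1 y - F1 x = 0 := congrFun hy 0
      have e2 : F2 y - F2 x = 0 := congrFun hy 1
      exact ⟨⟨hyV.1, by linarith, by linarith⟩, hyV⟩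

theorem leaf_submanifold_three {x : E12} (hr : rot (tm x) = 0) :
    IsSubmanifold 3 (leaf x) := by
  intro p hp
  refine ⟨siegelSet, fun y => tm y - tm x, isOpen_siegelSet, hp.1, ?_, ?_, ?_⟩
  · intro y hy
    exact ((contDiffAt_tm hy).sub contDiffAt_const).contDiffWithinAt
  · intro y hy w
    refine ⟨fld w 0 0 y, ?_⟩
    rw [((hasFDerivAt_tm hy).sub_const (tm x)).fderiv]
    exact fderiv_tm_fld hy w 0 0
  · ext y
    constructor
    · rintro ⟨⟨h1, h2, h3⟩, hyV⟩
      refine ⟨hyV, ?_⟩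
      show tm y - tm x = 0
      rw [eq_of_rot_eq_zero h2 h3 hr, sub_self]
    · rintro ⟨hyV, hy⟩
      have e : tm y = tm x := sub_eq_zero.1 hy
      refine ⟨⟨hyV, ?_, ?_⟩, hyV⟩
      · unfold F1; rw [e]
      · unfold F2; rw [e]

theorem leaf_submanifold (x : E12) : ∃ j, 2 ≤ j ∧ IsSubmanifold j (leaf x) := by
  by_cases hr : rot (tm x) = 0
  · exact ⟨3, by norm_num, leaf_submanifold_three hr⟩
  · exact ⟨2, le_refl _, leaf_submanifold_two hr⟩

theorem fld_tangent {y : E12} (hy : y ∈ siegelSet) (l : ℝ) (n : Fin 3 → ℝ) (b : Fin 6 → ℝ) :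
    fld (l • rot (tm y)) n b y ∈ tangentVectors (leaf y) y :=
  tangent_of_rot hy (fderiv_tm_fld hy _ _ _)

theorem fld_tangent_zero {y : E12} (hy : y ∈ siegelSet) (n : Fin 3 → ℝ) (b : Fin 6 → ℝ) :
    fld 0 n b y ∈ tangentVectors (leaf y) y := by
  have := fld_tangent hy 0 n b
  rwa [zero_smul] at this

theorem leaf_transitive {x : E12} (hx : x ∈ siegelSet) {v : E12}
    (hv : v ∈ tangentVectors (leaf x) x) : ∃ X : E12 → E12, ContDiffOn ℝ ∞ X siegelSet ∧
      (∀ y ∈ siegelSet, X y ∈ tangentVectors (leaf y) y) ∧ X x = v := by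
  obtain ⟨l, hl⟩ := exists_rot_of_tangent hx hv
  obtain ⟨n, b, hnb⟩ := exists_fld hx v
  rw [hl] at hnb
  refine ⟨fun y => fld (l • rot (tm y)) n b y, ?_, fun y hy => fld_tangent hy l n b, hnb.symm⟩
  intro y hy
  apply ContDiffAt.contDiffWithinAt
  refine contDiffAt_fld ?_ contDiffAt_const contDiffAt_const contDiffAt_id
  have h0 := contDiffAt_tm_apply hy 0
  have h1 := contDiffAt_tm_apply hy 1
  have h2 := contDiffAt_tm_apply hy 2
  rw [contDiffAt_pi]
  intro i
  fin_cases i
  · exact contDiffAt_const.mul ((contDiffAt_const.mul h2).sub h1)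
  · exact contDiffAt_const.mul (h0.sub (contDiffAt_const.mul h2))
  · exact contDiffAt_const.mul ((contDiffAt_const.mul h1).sub (contDiffAt_const.mul h0))

/-- Geodesics orthogonal to a leaf at one point are orthogonal to all leaves they meet. -/
theorem leaf_orthogonal {c : ℝ → E12} (hc : IsGeodesic siegel c) {s : ℝ}
    (hs : OrthogonalToLeaf siegel leaf (c s) (deriv c s)) (t : ℝ) :
    OrthogonalToLeaf siegel leaf (c t) (deriv c t) := by
  have hmem : ∀ r, c r ∈ siegelSet := hc.2.1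
  have hder : ∀ r, HasDerivAt c (deriv c r) r := fun r => hasDerivAt_of_contDiff hc.1 r
  -- the velocity is always orthogonal to the kernel of the projection
  have hor : ∀ r k, fderiv ℝ tm (c r) k = 0 → siegelMetric (c r) (deriv c r) k = 0 := by
    intro r k hk
    obtain ⟨n, b, hnb⟩ := exists_fld (hmem r) k
    rw [hk] at hnb
    rw [hnb, fld_noether hc 0 n b r s]
    exact hs _ (fld_tangent_zero (hmem s) n b)
  have hpair : ∀ r v, siegelMetric (c r) (deriv c r) v =
      fderiv ℝ tm (c r) (deriv c r) 0 * fderiv ℝ tm (c r) v 0 +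
      fderiv ℝ tm (c r) (deriv c r) 1 * fderiv ℝ tm (c r) v 1 +
      fderiv ℝ tm (c r) (deriv c r) 2 * fderiv ℝ tm (c r) v 2 := fun r v =>
    horizontal (hmem r) (hor r) v
  -- the projected velocity is constant
  set om := fderiv ℝ tm (c s) (deriv c s) with hom
  have homr : ∀ r, fderiv ℝ tm (c r) (deriv c r) = om := by
    intro r
    have key : ∀ w : Fin 3 → ℝ,
        fderiv ℝ tm (c r) (deriv c r) 0 * w 0 + fderiv ℝ tm (c r) (deriv c r) 1 * w 1 +
        fderiv ℝ tm (c r) (deriv c r) 2 * w 2 = om 0 * w 0 + om 1 * w 1 + om 2 * w 2 := by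
      intro w
      have h1 := fld_noether hc w 0 0 r s
      rw [hpair r, hpair s, fderiv_tm_fld (hmem r), fderiv_tm_fld (hmem s)] at h1
      exact h1
    ext i
    fin_cases i
    · simpa using key ![1, 0, 0]
    · simpa using key ![0, 1, 0]
    · simpa using key ![0, 0, 1]
  have htm : ∀ r, tm (c r) = tm (c s) + (r - s) • om := by
    intro r
    have h1 : ∀ r, HasDerivAt (fun r => tm (c r) - (r - s) • om) 0 r := by
      intro r
      have h2 := hasDerivAt_tm' (hmem r) (hder r)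
      rw [homr r] at h2
      have h3 : HasDerivAt (fun r : ℝ => (r - s) • om) om r := by
        simpa using ((hasDerivAt_id r).sub_const s).smul_const om
      exact (h2.sub h3).congr_deriv (sub_self _)
    have h4 := is_const_of_deriv_eq_zero (fun r => (h1 r).differentiableAt)
      (fun r => (h1 r).deriv) r s
    simp only [sub_self, zero_smul, sub_zero] at h4
    rw [← h4]
    abel
  intro v hv
  obtain ⟨l, hl⟩ := exists_rot_of_tangent (hmem t) hv
  have h0 : siegelMetric (c s) (deriv c s) (fld ((1 : ℝ) • rot (tm (c s))) 0 0 (c s)) = 0 :=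
    hs _ (fld_tangent (hmem s) 1 0 0)
  rw [hpair s, fderiv_tm_fld (hmem s), one_smul, ← hom] at h0
  show siegelMetric (c t) (deriv c t) v = 0
  rw [hpair t, hl, homr t, htm t]
  simp only [rot, Pi.add_apply, Pi.smul_apply, smul_eq_mul, Matrix.cons_val_zero,
    Matrix.cons_val_one, Matrix.cons_val] at h0 ⊢
  linear_combination l * h0

theorem leaf_foliation : IsSingularRiemannianFoliation siegel leaf where
  self_mem := fun _ hx => leaf_self_mem hx
  subset := fun _ _ _ hy => hy.1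
  eq_of_mem := fun _ _ _ hy => leaf_eq hy
  connected := fun x _ => leaf_connected x
  closed := fun _ _ => leaf_closed
  submanifold := fun x _ => by
    obtain ⟨j, _, hj⟩ := leaf_submanifold x
    exact ⟨j, hj⟩
  transitive := fun _ hx _ hv => leaf_transitive hx hv
  orthogonal := fun _ hc _ hs t => leaf_orthogonal hc hs t

end Pool.Agent.Lib.MP_08f71d_gt
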