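import Pool.Agent.Lib.MP_08f71d_gt.Defs

/-!
# Geodesics, isometries and Killing fields

Naturality of the geodesic equation under metric preserving maps, and the conservation law
attached to an affine Killing field.
-/

set_option autoImplicit false

open scoped ContDiff Topology

namespace Pool.Agent.Lib.MP_08f71d_gt

variable {E : Type} [NormedAddCommGroup E] [NormedSpace ℝ E]

theorem metric_add_right (M : RiemannianDomain E) (x v w z : E) :
    M.metric x v (w + z) = M.metric x v w + M.metric x v z := by
  rw [M.metric_symm x v, M.metric_add, M.metric_symm x w, M.metric_symm x z]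

theorem metric_smul_right (M : RiemannianDomain E) (x : E) (a : ℝ) (v w : E) :
    M.metric x v (a • w) = a * M.metric x v w := by
  rw [M.metric_symm x v, M.metric_smul, M.metric_symm x w]

theorem metric_zero_right (M : RiemannianDomain E) (x v : E) : M.metric x v 0 = 0 := by
  have := metric_smul_right M x 0 v 0
  simpa using this

/-- A differentiable curve. -/
theorem hasDerivAt_of_contDiff {c : ℝ → E} (hc : ContDiff ℝ ∞ c) (t : ℝ) :
    HasDerivAt c (deriv c t) t :=
  ((hc.differentiable (by simp)) t).hasDerivAt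

/-- A smooth curve has a smooth derivative. -/
theorem contDiff_deriv {c : ℝ → E} (hc : ContDiff ℝ ∞ c) : ContDiff ℝ ∞ (deriv c) :=
  (contDiff_infty_iff_deriv.1 hc).2

/-- A smooth curve has a derivative which is differentiable. -/
theorem hasDerivAt_deriv_of_contDiff {c : ℝ → E} (hc : ContDiff ℝ ∞ c) (t : ℝ) :
    HasDerivAt (deriv c) (deriv (deriv c) t) t :=
  hasDerivAt_of_contDiff (contDiff_deriv hc) t

variable [FiniteDimensional ℝ E]

/-- The metric as a continuous bilinear form. -/
noncomputable def form (M : RiemannianDomain E) (x : E) : E →L[ℝ] E →L[ℝ] ℝ :=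
  LinearMap.toContinuousLinearMap
    { toFun := fun v => LinearMap.toContinuousLinearMap
        { toFun := fun w => M.metric x v w
          map_add' := fun w z => metric_add_right M x v w z
          map_smul' := fun a w => by simpa using metric_smul_right M x a v w }
      map_add' := fun v w => by
        ext z
        simp [M.metric_add]
      map_smul' := fun a v => by
        ext z
        simp [M.metric_smul] }

@[simp] theorem form_apply (M : RiemannianDomain E) (x v w : E) :
    form M x v w = M.metric x v w := rfl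

theorem contDiffOn_form (M : RiemannianDomain E) : ContDiffOn ℝ ∞ (form M) M.carrier := by
  rw [contDiffOn_clm_apply]
  intro v
  rw [contDiffOn_clm_apply]
  intro w
  exact M.smooth v w

theorem form_differentiableAt (M : RiemannianDomain E) {x : E} (hx : x ∈ M.carrier) :
    DifferentiableAt ℝ (form M) x :=
  ((contDiffOn_form M).contDiffAt (M.isOpen.mem_nhds hx)).differentiableAt (by simp)

/-- The derivative of the metric coefficient. -/
theorem fderiv_metric_apply (M : RiemannianDomain E) {x : E} (hx : x ∈ M.carrier) (v w u : E) :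
    fderiv ℝ (fun x => M.metric x v w) x u = fderiv ℝ (form M) x u v w := by
  have h := (form_differentiableAt M hx).hasFDerivAt
  have h1 := (h.clm_apply (hasFDerivAt_const v x)).clm_apply (hasFDerivAt_const w x)
  have h2 : HasFDerivAt (fun x => M.metric x v w) _ x := h1
  rw [h2.fderiv]
  simp

/-- Differentiation of the metric along a curve with two moving vectors. -/
theorem hasDerivAt_metric (M : RiemannianDomain E) {c u v : ℝ → E} {c' u' v' : E} {t : ℝ}
    (hx : c t ∈ M.carrier) (hc : HasDerivAt c c' t) (hu : HasDerivAt u u' t)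
    (hv : HasDerivAt v v' t) :
    HasDerivAt (fun s => M.metric (c s) (u s) (v s))
      (fderiv ℝ (form M) (c t) c' (u t) (v t) + M.metric (c t) u' (v t) +
        M.metric (c t) (u t) v') t := by
  have h0 : HasFDerivAt (form M) (fderiv ℝ (form M) (c t)) (c t) :=
    (form_differentiableAt M hx).hasFDerivAt
  have h : HasDerivAt (fun s => form M (c s)) (fderiv ℝ (form M) (c t) c') t := by
    have := h0.comp_hasDerivAt (f := c) (x := t) (l := form M) hc
    exact this
  have h1 := (h.clm_apply hu).clm_apply hv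
  have h2 : HasDerivAt (fun s => M.metric (c s) (u s) (v s)) _ t := h1
  convert h2 using 1
  simp

/-- The geodesic equation, tested against a moving vector. -/
theorem IsGeodesic.hasDerivAt {M : RiemannianDomain E} {c : ℝ → E} (hc : IsGeodesic M c)
    {u : ℝ → E} {u' : E} {t : ℝ} (hu : HasDerivAt u u' t) :
    HasDerivAt (fun s => M.metric (c s) (deriv c s) (u s))
      (1 / 2 * fderiv ℝ (form M) (c t) (u t) (deriv c t) (deriv c t) +
        M.metric (c t) (deriv c t) u') t := by
  obtain ⟨h1, h2, h3⟩ := hc
  have h4 := h3 t (u t)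
  rw [fderiv_metric_apply M (h2 t)] at h4
  have h5 := hasDerivAt_metric M (h2 t) (hasDerivAt_of_contDiff h1 t)
    (hasDerivAt_deriv_of_contDiff h1 t) (hasDerivAt_const t (u t))
  have h6 := hasDerivAt_metric M (h2 t) (hasDerivAt_of_contDiff h1 t)
    (hasDerivAt_deriv_of_contDiff h1 t) hu
  have h7 := h4.unique h5
  convert h6 using 1
  rw [h7]
  rw [metric_zero_right, add_zero]

/-- Strong form of the geodesic equation. -/
theorem IsGeodesic.strong {M : RiemannianDomain E} {c : ℝ → E} (hc : IsGeodesic M c) (t : ℝ)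
    (w : E) :
    fderiv ℝ (form M) (c t) (deriv c t) (deriv c t) w + M.metric (c t) (deriv (deriv c) t) w =
      1 / 2 * fderiv ℝ (form M) (c t) w (deriv c t) (deriv c t) := by
  obtain ⟨h1, h2, h3⟩ := hc
  have h4 := h3 t w
  rw [fderiv_metric_apply M (h2 t)] at h4
  have h5 := hasDerivAt_metric M (h2 t) (hasDerivAt_of_contDiff h1 t)
    (hasDerivAt_deriv_of_contDiff h1 t) (hasDerivAt_const t w)
  have h7 := h4.unique h5
  rw [h7]
  rw [metric_zero_right, add_zero]

/-- Conservation law attached to an affine Killing field. -/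
theorem IsGeodesic.noether {M : RiemannianDomain E} {c : ℝ → E} (hc : IsGeodesic M c)
    (A : E →L[ℝ] E) (k : E)
    (hK : ∀ x ∈ M.carrier, ∀ v, fderiv ℝ (form M) x (A x + k) v v + 2 * M.metric x v (A v) = 0)
    (s t : ℝ) :
    M.metric (c s) (deriv c s) (A (c s) + k) = M.metric (c t) (deriv c t) (A (c t) + k) := by
  have key : ∀ r, HasDerivAt (fun s => M.metric (c s) (deriv c s) (A (c s) + k)) 0 r := by
    intro r
    have h1 : HasDerivAt (fun s => A (c s) + k) (A (deriv c r)) r := by
      have := (A.hasFDerivAt.comp_hasDerivAt r (hasDerivAt_of_contDiff hc.1 r)).add_const k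
      exact this
    have h2 := hc.hasDerivAt h1
    convert h2 using 1
    have := hK (c r) (hc.2.1 r) (deriv c r)
    linarith
  exact is_const_of_deriv_eq_zero (fun r => (key r).differentiableAt) (fun r => (key r).deriv) s t

omit [FiniteDimensional ℝ E] in
theorem PreservesMetric.injective {M : RiemannianDomain E} {h : E → E} (hh : PreservesMetric M h)
    {x : E} (hx : x ∈ M.carrier) : Function.Injective (fderiv ℝ h x) := by
  rw [injective_iff_map_eq_zero]
  intro v hv
  by_contra hne
  have h1 := M.metric_pos x hx v hne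
  have h2 := hh.2.2 x hx v v
  rw [hv, metric_zero_right] at h2
  linarith

theorem PreservesMetric.surjective {M : RiemannianDomain E} {h : E → E}
    (hh : PreservesMetric M h) {x : E} (hx : x ∈ M.carrier) :
    Function.Surjective (fderiv ℝ h x) :=
  LinearMap.surjective_of_injective (f := (fderiv ℝ h x : E →ₗ[ℝ] E)) (hh.injective hx)

/-- Metric preserving maps send geodesics to geodesics. -/
theorem IsGeodesic.comp {M : RiemannianDomain E} {c : ℝ → E} (hc : IsGeodesic M c) {h : E → E}
    (hh : PreservesMetric M h) : IsGeodesic M (fun s => h (c s)) := by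
  have hsm : ContDiff ℝ ∞ (fun s => h (c s)) := hh.1.comp_contDiff hc.1 hc.2.1
  refine ⟨hsm, fun s => hh.2.1 _ (hc.2.1 s), fun t w => ?_⟩
  obtain ⟨u, hu⟩ := hh.surjective (hc.2.1 t) w
  have hat : ∀ x ∈ M.carrier, ContDiffAt ℝ ∞ h x := fun x hx =>
    hh.1.contDiffAt (M.isOpen.mem_nhds hx)
  have hd : ∀ x ∈ M.carrier, HasFDerivAt h (fderiv ℝ h x) x := fun x hx =>
    ((hat x hx).differentiableAt (by simp)).hasFDerivAt
  have hdd : ∀ x ∈ M.carrier, HasFDerivAt (fderiv ℝ h) (fderiv ℝ (fderiv ℝ h) x) x :=
    fun x hx => (((hat x hx).fderiv_right (m := 1) (by norm_cast)).differentiableAt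
      (by simp)).hasFDerivAt
  have hγ : ∀ s, HasDerivAt (fun s => h (c s)) (fderiv ℝ h (c s) (deriv c s)) s := fun s =>
    (hd (c s) (hc.2.1 s)).comp_hasDerivAt s (hasDerivAt_of_contDiff hc.1 s)
  have hγd : deriv (fun s => h (c s)) = fun s => fderiv ℝ h (c s) (deriv c s) := by
    ext1 s; exact (hγ s).deriv
  have hx : h (c t) ∈ M.carrier := hh.2.1 _ (hc.2.1 t)
  -- the left hand side
  have e1 : HasDerivAt (fun s => fderiv ℝ h (c s) u)
      (fderiv ℝ (fderiv ℝ h) (c t) (deriv c t) u) t := by
    have := ((hdd (c t) (hc.2.1 t)).comp_hasDerivAt t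
      (hasDerivAt_of_contDiff hc.1 t)).clm_apply (hasDerivAt_const t u)
    rw [map_zero, add_zero] at this
    exact this
  have e2 := hasDerivAt_metric M hx (hγ t) (hasDerivAt_deriv_of_contDiff hsm t) e1
  have e3 : (fun s => M.metric (h (c s)) (deriv (fun s => h (c s)) s) (fderiv ℝ h (c s) u)) =
      fun s => M.metric (c s) (deriv c s) u := by
    ext1 s
    rw [hγd]
    exact hh.2.2 (c s) (hc.2.1 s) _ _
  rw [e3] at e2
  have e4 := hc.2.2 t u
  rw [fderiv_metric_apply M (hc.2.1 t)] at e4
  have e5 := e4.unique e2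
  -- differentiating the metric preservation
  have f0 : HasDerivAt (fun τ : ℝ => c t + τ • u) u 0 := by
    have := ((hasDerivAt_id (0 : ℝ)).smul_const u).const_add (c t)
    simpa using this
  have f1 : HasDerivAt (fun τ : ℝ => h (c t + τ • u)) (fderiv ℝ h (c t) u) 0 := by
    have := (hd (c t) (hc.2.1 t)).comp_hasDerivAt_of_eq (0 : ℝ) f0 (by simp)
    exact this
  have f2 : HasDerivAt (fun τ : ℝ => fderiv ℝ h (c t + τ • u) (deriv c t))
      (fderiv ℝ (fderiv ℝ h) (c t) u (deriv c t)) 0 := by
    have := ((hdd (c t) (hc.2.1 t)).comp_hasDerivAt_of_eq (0 : ℝ) f0 (by simp)).clm_apply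
      (hasDerivAt_const (0 : ℝ) (deriv c t))
    rw [map_zero, add_zero] at this
    exact this
  have f3 := hasDerivAt_metric M (c := fun τ : ℝ => h (c t + τ • u)) (t := 0)
    (by simpa using hx) f1 f2 f2
  have f4 := hasDerivAt_metric M (c := fun τ : ℝ => c t + τ • u) (t := 0)
    (by simpa using hc.2.1 t) f0 (hasDerivAt_const (0 : ℝ) (deriv c t))
    (hasDerivAt_const (0 : ℝ) (deriv c t))
  have f5 : (fun τ : ℝ => M.metric (h (c t + τ • u)) (fderiv ℝ h (c t + τ • u) (deriv c t))
      (fderiv ℝ h (c t + τ • u) (deriv c t))) =ᶠ[𝓝 0]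
      fun τ : ℝ => M.metric (c t + τ • u) (deriv c t) (deriv c t) := by
    have hcont : ContinuousAt (fun τ : ℝ => c t + τ • u) 0 := f0.continuousAt
    have : ∀ᶠ τ : ℝ in 𝓝 0, c t + τ • u ∈ M.carrier :=
      hcont.eventually (M.isOpen.mem_nhds (by simpa using hc.2.1 t))
    filter_upwards [this] with τ hτ
    exact hh.2.2 _ hτ _ _
  have f6 := f3.unique (f4.congr_of_eventuallyEq f5)
  have sym2 : fderiv ℝ (fderiv ℝ h) (c t) u (deriv c t) =
      fderiv ℝ (fderiv ℝ h) (c t) (deriv c t) u :=
    ((hat (c t) (hc.2.1 t)).isSymmSndFDerivAt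
      (by rw [minSmoothness_of_isRCLikeNormedField]; exact WithTop.coe_le_coe.2 le_top)) u (deriv c t)
  simp only [zero_smul, add_zero] at f6
  have z1 : M.metric (c t) 0 (deriv c t) = 0 := by
    rw [M.metric_symm]; exact metric_zero_right M _ _
  rw [metric_zero_right, z1, hu, sym2, M.metric_symm (h (c t))
    (fderiv ℝ (fderiv ℝ h) (c t) (deriv c t) u)] at f6
  -- conclusion
  have g1 := hasDerivAt_metric M hx (hγ t) (hasDerivAt_deriv_of_contDiff hsm t)
    (hasDerivAt_const t w)
  rw [fderiv_metric_apply M hx]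
  convert g1 using 1
  rw [metric_zero_right]
  rw [hu] at e5
  have hγt : deriv (fun s => h (c s)) t = fderiv ℝ h (c t) (deriv c t) := (hγ t).deriv
  rw [hγt] at e5 ⊢
  linarith

end Pool.Agent.Lib.MP_08f71d_gt
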