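import Pool.Agent.Lib.MP_08f71d_gt.Sections

/-!
# The leaves are not orbits of isometries
-/

set_option autoImplicit false

open scoped ContDiff Topology Matrix

namespace Pool.Agent.Lib.MP_08f71d_gt

/-- The first point. -/
noncomputable def pp : E12 := dg fun i => Real.exp ((![0, 1, -2] : Fin 3 → ℝ) i)

/-- The second point. -/
noncomputable def qq : E12 := dg fun i => Real.exp ((![0, -1, 2] : Fin 3 → ℝ) i)

theorem pp_mem : pp ∈ siegelSet := dg_mem fun _ => Real.exp_pos _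

theorem qq_mem : qq ∈ siegelSet := dg_mem fun _ => Real.exp_pos _

theorem tm_pp : tm pp = ![0, 1, -2] := tm_dg _

theorem tm_qq : tm qq = ![0, -1, 2] := tm_dg _

theorem qq_mem_leaf : qq ∈ leaf pp := by
  refine ⟨qq_mem, ?_, ?_⟩
  · unfold F1
    rw [tm_pp, tm_qq]
    simp
  · unfold F2
    rw [tm_pp, tm_qq]
    simp

/-- A geodesic through the first point. -/
noncomputable def gc (s : ℝ) : E12 :=
  (![0, 0, 0, 0, 0, Real.exp (-2) * Real.sinh s / Real.cosh s],
    ![1, 0, 0, Real.exp 1, 0, Real.exp (-2) / Real.cosh s])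

/-- The velocity of the geodesic. -/
noncomputable def gc' (s : ℝ) : E12 :=
  (![0, 0, 0, 0, 0, Real.exp (-2) / Real.cosh s ^ 2],
    ![0, 0, 0, 0, 0, - Real.exp (-2) * Real.sinh s / Real.cosh s ^ 2])

/-- The diagonal of the imaginary part. -/
noncomputable def gd (s : ℝ) : Fin 3 → ℝ := ![1, Real.exp 1, Real.exp (-2) / Real.cosh s]

theorem gd_pos (s : ℝ) : ∀ i, 0 < gd s i := by
  have h1 := Real.exp_pos 1
  have h2 := Real.exp_pos (-2)
  have h3 := Real.cosh_pos s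
  intro i
  fin_cases i
  · exact one_pos
  · exact h1
  · exact div_pos h2 h3

theorem gc_snd (s : ℝ) : (gc s).2 = (dg (gd s)).2 := rfl

theorem gc_mem (s : ℝ) : gc s ∈ siegelSet := mem_of_snd (gd_pos s) (gc_snd s)

theorem hasDerivAt_gc (s : ℝ) : HasDerivAt gc (gc' s) s := by
  have hc := (Real.cosh_pos s).ne'
  have hcs := Real.cosh_sq s
  have h1 : HasDerivAt (fun s => Real.exp (-2) * Real.sinh s / Real.cosh s)
      (Real.exp (-2) / Real.cosh s ^ 2) s := by
    refine (((Real.hasDerivAt_sinh s).const_mul (Real.exp (-2))).div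
      (Real.hasDerivAt_cosh s) hc).congr_deriv ?_
    congr 1
    linear_combination Real.exp (-2) * hcs
  have h2 : HasDerivAt (fun s => Real.exp (-2) / Real.cosh s)
      (- Real.exp (-2) * Real.sinh s / Real.cosh s ^ 2) s := by
    refine ((hasDerivAt_const s (Real.exp (-2))).div (Real.hasDerivAt_cosh s) hc).congr_deriv ?_
    congr 1
    ring
  refine HasDerivAt.prodMk ?_ ?_
  · rw [hasDerivAt_pi]
    intro i
    fin_cases i
    · exact hasDerivAt_const _ _
    · exact hasDerivAt_const _ _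
    · exact hasDerivAt_const _ _
    · exact hasDerivAt_const _ _
    · exact hasDerivAt_const _ _
    · exact h1
  · rw [hasDerivAt_pi]
    intro i
    fin_cases i
    · exact hasDerivAt_const _ _
    · exact hasDerivAt_const _ _
    · exact hasDerivAt_const _ _
    · exact hasDerivAt_const _ _
    · exact hasDerivAt_const _ _
    · exact h2

theorem contDiff_gc : ContDiff ℝ ∞ gc := by
  have hc : ∀ s, Real.cosh s ≠ 0 := fun s => (Real.cosh_pos s).ne'
  refine ContDiff.prodMk ?_ ?_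
  · rw [contDiff_pi]
    intro i
    fin_cases i
    · exact contDiff_const
    · exact contDiff_const
    · exact contDiff_const
    · exact contDiff_const
    · exact contDiff_const
    · exact (contDiff_const.mul Real.contDiff_sinh).div Real.contDiff_cosh hc
  · rw [contDiff_pi]
    intro i
    fin_cases i
    · exact contDiff_const
    · exact contDiff_const
    · exact contDiff_const
    · exact contDiff_const
    · exact contDiff_const
    · exact contDiff_const.div Real.contDiff_cosh hc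

theorem gc_geodesic : IsGeodesic siegel gc := by
  refine ⟨contDiff_gc, gc_mem, fun t v => ?_⟩
  have hder : deriv gc = gc' := by
    ext1 s
    exact (hasDerivAt_gc s).deriv
  have hr := (Real.exp_pos (-2)).ne'
  rw [fderiv_metric_apply siegel (gc_mem t), hder, fderiv_form_of_snd (gd_pos t) (gc_snd t)]
  have hm : (fun s : ℝ => siegel.metric (gc s) (gc' s) v) = fun s =>
      v.1 5 / Real.exp (-2) - Real.sinh s * (v.2 5 / Real.exp (-2)) := by
    ext1 s
    have hc := (Real.cosh_pos s).ne'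
    show siegelMetric _ _ _ = _
    rw [siegelMetric_of_snd (gd_pos s) (gc_snd s)]
    unfold dq gc' gd
    simp
    field_simp
    ring
  rw [hm]
  refine (((hasDerivAt_const t (v.1 5 / Real.exp (-2)))).sub
    ((Real.hasDerivAt_sinh t).mul_const (v.2 5 / Real.exp (-2)))).congr_deriv ?_
  have hc := (Real.cosh_pos t).ne'
  have hcs := Real.cosh_sq t
  unfold tq gc' gd
  simp only [Fin.sum_univ_three]
  simp [sym]
  field_simp
  rw [hcs]
  ring

theorem tm_gc (s : ℝ) : tm (gc s) = ![0, 1, -2 - Real.log (Real.cosh s)] := by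
  have h : tm (gc s) = tm (dg (gd s)) := rfl
  have h2 : gd s = fun i => Real.exp ((![0, 1, -2 - Real.log (Real.cosh s)] : Fin 3 → ℝ) i) := by
    ext i
    fin_cases i
    · simp [gd]
    · simp [gd]
    · simp [gd, Real.exp_sub, Real.exp_log (Real.cosh_pos s)]
  rw [h, h2, tm_dg]

theorem gc_zero : gc 0 = pp := by
  simp [gc, pp, dg]

theorem F1_gc (s : ℝ) : F1 (gc s) = 1 + (2 + Real.log (Real.cosh s)) ^ 2 := by
  unfold F1
  rw [tm_gc]
  simp
  ring

theorem deriv2_F1_gc : deriv (deriv fun s => F1 (gc s)) 0 = 4 := by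
  have h0 : (fun s => F1 (gc s)) = fun s => 1 + (2 + Real.log (Real.cosh s)) ^ 2 := by
    ext1 s; exact F1_gc s
  have hl : ∀ s, HasDerivAt (fun s => Real.log (Real.cosh s)) (Real.sinh s / Real.cosh s) s :=
    fun s => (Real.hasDerivAt_cosh s).log (Real.cosh_pos s).ne'
  have h1 : deriv (fun s => F1 (gc s)) = fun s =>
      2 * (2 + Real.log (Real.cosh s)) * (Real.sinh s / Real.cosh s) := by
    rw [h0]
    ext1 s
    have := (((hl s).const_add 2).pow 2).const_add 1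
    refine (this.congr_deriv ?_).deriv
    simp
  rw [h1]
  have h2 : HasDerivAt (fun s => Real.sinh s / Real.cosh s) 1 0 := by
    refine ((Real.hasDerivAt_sinh 0).div (Real.hasDerivAt_cosh 0)
      (Real.cosh_pos 0).ne').congr_deriv ?_
    simp
  have h3 := (((hl 0).const_add 2).const_mul 2).mul h2
  refine (h3.congr_deriv ?_).deriv
  simp
  try norm_num

theorem metric_gc_zero : siegelMetric (gc 0) (gc' 0) (gc' 0) = 1 := by
  rw [siegelMetric_of_snd (gd_pos 0) (gc_snd 0)]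
  have hr := (Real.exp_pos (-2)).ne'
  unfold dq gc' gd
  simp

/-- The diagonal of the imaginary part of the second point. -/
noncomputable def qd : Fin 3 → ℝ := fun i => Real.exp ((![0, -1, 2] : Fin 3 → ℝ) i)

theorem qd_pos : ∀ i, 0 < qd i := fun _ => Real.exp_pos _

theorem contDiff_tm_comp {γ : ℝ → E12} (hγ : ContDiff ℝ ∞ γ) (hm : ∀ s, γ s ∈ siegelSet) :
    ContDiff ℝ ∞ (fun s => tm (γ s)) := by
  rw [contDiff_iff_contDiffAt]
  intro s
  exact (contDiffAt_tm (hm s)).comp s hγ.contDiffAt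

/-- The second derivative of the squared length of the projection along a geodesic through the
second point. -/
theorem deriv2_F1 {γ : ℝ → E12} (hγ : IsGeodesic siegel γ) (h0 : γ 0 = qq) :
    deriv (deriv fun s => F1 (γ s)) 0 ≤ 3 * siegelMetric (γ 0) (deriv γ 0) (deriv γ 0) := by
  have hmem : ∀ s, γ s ∈ siegelSet := hγ.2.1
  have hder : ∀ s, HasDerivAt γ (deriv γ s) s := fun s => hasDerivAt_of_contDiff hγ.1 s
  have hder2 : HasDerivAt (deriv γ) (deriv (deriv γ) 0) 0 :=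
    hasDerivAt_deriv_of_contDiff hγ.1 0
  set T : ℝ → Fin 3 → ℝ := fun s => tm (γ s) with hTdef
  have hTs : ContDiff ℝ ∞ T := contDiff_tm_comp hγ.1 hmem
  have hT : ∀ s, HasDerivAt T (deriv T s) s := fun s => hasDerivAt_of_contDiff hTs s
  have hT2 : HasDerivAt (deriv T) (deriv (deriv T) 0) 0 := hasDerivAt_deriv_of_contDiff hTs 0
  have hT1 : ∀ s, deriv T s = ![dm3 (γ s) (deriv γ s) / m3 (γ s) -
      dm2 (γ s) (deriv γ s) / m2 (γ s), dm2 (γ s) (deriv γ s) / m2 (γ s) -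
      dm1 (γ s) (deriv γ s) / m1 (γ s), dm1 (γ s) (deriv γ s) / m1 (γ s)] := fun s =>
    (hasDerivAt_tm (hmem s) (hder s)).deriv
  -- second derivative of F1
  have hF' : deriv (fun s => F1 (γ s)) = fun s =>
      2 * (T s 0 * deriv T s 0 + T s 1 * deriv T s 1 + T s 2 * deriv T s 2) := by
    ext1 s
    have h := hasDerivAt_pi.1 (hT s)
    have h1 := (((h 0).pow 2).add ((h 1).pow 2)).add ((h 2).pow 2)
    refine (h1.congr_deriv ?_).deriv
    simp
    ring
  have hF'' : deriv (deriv fun s => F1 (γ s)) 0 =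
      2 * (deriv T 0 0 * deriv T 0 0 + T 0 0 * deriv (deriv T) 0 0 +
        (deriv T 0 1 * deriv T 0 1 + T 0 1 * deriv (deriv T) 0 1) +
        (deriv T 0 2 * deriv T 0 2 + T 0 2 * deriv (deriv T) 0 2)) := by
    rw [hF']
    have h := hasDerivAt_pi.1 (hT 0)
    have h2 := hasDerivAt_pi.1 hT2
    exact (((((h 0).mul (h2 0)).add ((h 1).mul (h2 1))).add ((h 2).mul (h2 2))).const_mul 2).deriv
  have hT0 : T 0 = ![0, -1, 2] := by
    rw [hTdef]
    simp only
    rw [h0, tm_qq]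
  -- notation
  have hD : γ 0 = dg qd := h0
  set d := qd with hd
  have hdp := qd_pos
  rw [← hd] at hdp
  have n0 := (hdp 0).ne'
  have n1 := (hdp 1).ne'
  have n2 := (hdp 2).ne'
  have hc := fun i => hasDerivAt_coord (hder 0) i
  have hk := fun i => hasDerivAt_coord hder2 i
  set Y := (deriv γ 0).2 with hY
  set X := (deriv γ 0).1 with hX
  set Z := (deriv (deriv γ) 0).2 with hZ
  have g0 : (γ 0).2 0 = d 0 := by rw [hD]; rfl
  have g1 : (γ 0).2 1 = 0 := by rw [hD]; rfl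
  have g2 : (γ 0).2 2 = 0 := by rw [hD]; rfl
  have g3 : (γ 0).2 3 = d 1 := by rw [hD]; rfl
  have g4 : (γ 0).2 4 = 0 := by rw [hD]; rfl
  have g5 : (γ 0).2 5 = d 2 := by rw [hD]; rfl
  -- first derivatives at zero
  have hm1 : m1 (γ 0) = d 2 := by unfold m1; rw [g5]
  have hm2 : m2 (γ 0) = d 1 * d 2 := by unfold m2; rw [g3, g5, g4]; ring
  have hm3 : m3 (γ 0) = d 0 * d 1 * d 2 := by
    unfold m3; rw [g0, g1, g2, g3, g4, g5]; ring
  have hdm1 : dm1 (γ 0) (deriv γ 0) = Y 5 := rfl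
  have hdm2 : dm2 (γ 0) (deriv γ 0) = Y 3 * d 2 + d 1 * Y 5 := by
    unfold dm2; rw [g3, g4, g5, ← hY]; ring
  have hdm3 : dm3 (γ 0) (deriv γ 0) = Y 0 * d 1 * d 2 + d 0 * Y 3 * d 2 + d 0 * d 1 * Y 5 := by
    unfold dm3; rw [g0, g1, g2, g3, g4, g5, ← hY]; ring
  have w2 : deriv T 0 2 = Y 5 / d 2 := by
    rw [hT1]
    simp [hm1, hdm1]
  have w1 : deriv T 0 1 = Y 3 / d 1 := by
    rw [hT1]
    simp only [Matrix.cons_val_zero, Matrix.cons_val_one, Matrix.cons_val]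
    rw [hm1, hdm1, hm2, hdm2]
    field_simp
    ring
  have w0 : deriv T 0 0 = Y 0 / d 0 := by
    rw [hT1]
    simp only [Matrix.cons_val_zero, Matrix.cons_val_one, Matrix.cons_val]
    rw [hm3, hdm3, hm2, hdm2]
    field_simp
    ring
  -- second derivatives at zero
  have z2 : deriv (deriv T) 0 2 = Z 5 / d 2 - (Y 5 / d 2) ^ 2 := by
    have h1 := hasDerivAt_pi.1 hT2 2
    have h2 : (fun s => deriv T s 2) = fun s => (deriv γ s).2 5 / (γ s).2 5 := by
      ext1 s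
      rw [hT1 s]
      rfl
    have h3 := (hk 5).div (hc 5) (by rw [g5]; exact n2)
    have h4 : HasDerivAt (fun s => deriv T s 2)
        ((Z 5 * (γ 0).2 5 - (deriv γ 0).2 5 * Y 5) / (γ 0).2 5 ^ 2) 0 := by
      rw [h2]; exact h3
    rw [h1.unique h4, g5, ← hY]
    field_simp
  have z1 : deriv (deriv T) 0 1 = Z 3 / d 1 - (Y 3 / d 1) ^ 2 - 2 * Y 4 ^ 2 / (d 1 * d 2) := by
    have h1 := hasDerivAt_pi.1 hT2 1
    have h2 : (fun s => deriv T s 1) = fun s => dm2 (γ s) (deriv γ s) / m2 (γ s) -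
        (deriv γ s).2 5 / (γ s).2 5 := by
      ext1 s
      rw [hT1 s]
      rfl
    have h3 := (hk 5).div (hc 5) (by rw [g5]; exact n2)
    have h5 : HasDerivAt (fun s => dm2 (γ s) (deriv γ s))
        (Z 3 * d 2 + 2 * (Y 3 * Y 5) + d 1 * Z 5 - 2 * Y 4 ^ 2) 0 := by
      refine ((((hk 3).mul (hc 5)).add ((hc 3).mul (hk 5))).sub
        (((hc 4).const_mul 2).mul (hk 4))).congr_deriv ?_
      rw [g3, g4, g5, ← hY]
      ring
    have h6 := hasDerivAt_m2 (hder 0)
    have h7 := (h5.div h6 (by rw [hm2]; exact mul_ne_zero n1 n2)).sub h3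
    have h4 : HasDerivAt (fun s => deriv T s 1)
        ((Z 3 * d 2 + 2 * (Y 3 * Y 5) + d 1 * Z 5 - 2 * Y 4 ^ 2) / (d 1 * d 2) -
          (Y 3 * d 2 + d 1 * Y 5) ^ 2 / (d 1 * d 2) ^ 2 -
          (Z 5 / d 2 - (Y 5 / d 2) ^ 2)) 0 := by
      rw [h2]
      refine h7.congr_deriv ?_
      rw [hm2, hdm2, g5, ← hY]
      field_simp
    rw [h1.unique h4]
    field_simp
    ring
  -- the geodesic equation
  have hgeo : ∀ u : Fin 6 → ℝ, dq d Z u =
      tq (fun i => (d i)⁻¹) Y Y u + tq (fun i => (d i)⁻¹) Y Y u -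
      1 / 2 * (tq (fun i => (d i)⁻¹) u X X + tq (fun i => (d i)⁻¹) X u X +
        tq (fun i => (d i)⁻¹) u Y Y + tq (fun i => (d i)⁻¹) Y u Y) := by
    intro u
    have h := hγ.strong 0 (0, u)
    rw [hD] at h
    have h1 : siegel.metric (dg d) (deriv (deriv γ) 0) (0, u) =
        dq d (deriv (deriv γ) 0).1 0 + dq d (deriv (deriv γ) 0).2 u := siegelMetric_dg hdp _ _
    rw [h1, fderiv_form_of_snd hdp rfl, fderiv_form_of_snd hdp rfl] at h
    have h2 : dq d (deriv (deriv γ) 0).1 0 = 0 := by simp [dq]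
    have h3 : ∀ a b, tq (fun i => (d i)⁻¹) a b 0 = 0 := by
      intro a b
      simp [tq, sym_zero]
    simp only [h2, h3, ← hY, ← hX, ← hZ] at h
    linarith
  have e3 : Z 3 = Y 1 ^ 2 / d 0 + Y 3 ^ 2 / d 1 + Y 4 ^ 2 / d 2 -
      (X 1 ^ 2 / d 0 + X 3 ^ 2 / d 1 + X 4 ^ 2 / d 2) := by
    have h := hgeo ![0, 0, 0, 1, 0, 0]
    unfold dq tq at h
    simp only [Fin.sum_univ_three] at h
    simp [sym] at h
    field_simp at h ⊢
    linarith
  have e5 : Z 5 = Y 2 ^ 2 / d 0 + Y 4 ^ 2 / d 1 + Y 5 ^ 2 / d 2 -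
      (X 2 ^ 2 / d 0 + X 4 ^ 2 / d 1 + X 5 ^ 2 / d 2) := by
    have h := hgeo ![0, 0, 0, 0, 0, 1]
    unfold dq tq at h
    simp only [Fin.sum_univ_three] at h
    simp [sym] at h
    field_simp at h ⊢
    linarith
  have k0 := hdp 0
  have k1 := hdp 1
  have k2 := hdp 2
  rw [hF'', hT0, w0, w1, w2, z1, z2, e3, e5, hD, siegelMetric_dg hdp]
  simp only [Matrix.cons_val_zero, Matrix.cons_val_one, Matrix.cons_val]
  rw [← sub_nonneg, ← hX, ← hY]
  unfold dq
  have key : 3 * (X 0 * X 0 / (d 0 * d 0) + X 3 * X 3 / (d 1 * d 1) + X 5 * X 5 / (d 2 * d 2) +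
        2 * (X 1 * X 1 / (d 0 * d 1)) + 2 * (X 2 * X 2 / (d 0 * d 2)) +
        2 * (X 4 * X 4 / (d 1 * d 2)) + (Y 0 * Y 0 / (d 0 * d 0) + Y 3 * Y 3 / (d 1 * d 1) +
        Y 5 * Y 5 / (d 2 * d 2) + 2 * (Y 1 * Y 1 / (d 0 * d 1)) +
        2 * (Y 2 * Y 2 / (d 0 * d 2)) + 2 * (Y 4 * Y 4 / (d 1 * d 2)))) -
      2 * (Y 0 / d 0 * (Y 0 / d 0) + 0 * deriv (deriv T) 0 0 +
        (Y 3 / d 1 * (Y 3 / d 1) + -1 *
          ((Y 1 ^ 2 / d 0 + Y 3 ^ 2 / d 1 + Y 4 ^ 2 / d 2 -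
            (X 1 ^ 2 / d 0 + X 3 ^ 2 / d 1 + X 4 ^ 2 / d 2)) / d 1 - (Y 3 / d 1) ^ 2 -
            2 * Y 4 ^ 2 / (d 1 * d 2))) +
        (Y 5 / d 2 * (Y 5 / d 2) + 2 *
          ((Y 2 ^ 2 / d 0 + Y 4 ^ 2 / d 1 + Y 5 ^ 2 / d 2 -
            (X 2 ^ 2 / d 0 + X 4 ^ 2 / d 1 + X 5 ^ 2 / d 2)) / d 2 - (Y 5 / d 2) ^ 2))) =
      Y 0 ^ 2 / (d 0 * d 0) + Y 3 ^ 2 / (d 1 * d 1) + Y 5 ^ 2 / (d 2 * d 2) +
        8 * (Y 1 ^ 2 / (d 0 * d 1)) + 2 * (Y 2 ^ 2 / (d 0 * d 2)) +
        3 * (X 0 ^ 2 / (d 0 * d 0)) + X 3 ^ 2 / (d 1 * d 1) + 7 * (X 5 ^ 2 / (d 2 * d 2)) +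
        4 * (X 1 ^ 2 / (d 0 * d 1)) + 10 * (X 2 ^ 2 / (d 0 * d 2)) +
        8 * (X 4 ^ 2 / (d 1 * d 2)) := by
    field_simp
    ring
  rw [key]
  positivity

/-- The leaves are not the orbits of any set of isometries. -/
theorem not_leavesAreOrbits : ¬ LeavesAreOrbits siegel leaf := by
  rintro ⟨H, hH, horb⟩
  have hq : qq ∈ leaf pp := qq_mem_leaf
  rw [horb pp pp_mem] at hq
  obtain ⟨h, hhH, hhq⟩ := hq
  have hpres := hH h hhH
  have hgeo : IsGeodesic siegel (fun s => h (gc s)) := gc_geodesic.comp hpres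
  have h0 : h (gc 0) = qq := by rw [gc_zero]; exact hhq.symm
  have hF : (fun s => F1 (h (gc s))) = fun s => F1 (gc s) := by
    ext1 s
    have : h (gc s) ∈ leaf (gc s) := by
      rw [horb (gc s) (gc_mem s)]
      exact ⟨h, hhH, rfl⟩
    exact this.2.1
  have h1 := deriv2_F1 hgeo h0
  rw [hF, deriv2_F1_gc] at h1
  have hd : deriv (fun s => h (gc s)) 0 = fderiv ℝ h (gc 0) (gc' 0) := by
    have h2 : HasFDerivAt h (fderiv ℝ h (gc 0)) (gc 0) :=
      ((hpres.1.contDiffAt (isOpen_siegelSet.mem_nhds (gc_mem 0))).differentiableAt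
        (by simp)).hasFDerivAt
    exact (h2.comp_hasDerivAt 0 (hasDerivAt_gc 0)).deriv
  have h3 : siegelMetric (h (gc 0)) (fderiv ℝ h (gc 0) (gc' 0)) (fderiv ℝ h (gc 0) (gc' 0)) =
      siegelMetric (gc 0) (gc' 0) (gc' 0) := hpres.2.2 (gc 0) (gc_mem 0) _ _
  rw [hd, h3, metric_gc_zero] at h1
  norm_num at h1

end Pool.Agent.Lib.MP_08f71d_gt
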