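import Pool.Agent.Lib.MP_08f71d_gt.Curves

/-!
# The leaves and their tangent vectors
-/

set_option autoImplicit false

open scoped ContDiff Topology Matrix

namespace Pool.Agent.Lib.MP_08f71d_gt

/-- The squared length of the projection. -/
noncomputable def F1 (z : E12) : ℝ := tm z 0 ^ 2 + tm z 1 ^ 2 + tm z 2 ^ 2

/-- The scalar product of the projection with the axis. -/
noncomputable def F2 (z : E12) : ℝ := 3 * tm z 0 + 2 * tm z 1 + tm z 2

/-- The leaf through a point. -/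
def leaf (z : E12) : Set E12 := {y | y ∈ siegelSet ∧ F1 y = F1 z ∧ F2 y = F2 z}

/-- Infinitesimal rotation about the axis `(3, 2, 1)`. -/
def rot (t : Fin 3 → ℝ) : Fin 3 → ℝ := ![2 * t 2 - t 1, t 0 - 3 * t 2, 3 * t 1 - 2 * t 0]

/-- Rotation about the axis `(3, 2, 1)`. -/
noncomputable def circ (t : Fin 3 → ℝ) (θ : ℝ) : Fin 3 → ℝ :=
  ![3 * ((3 * t 0 + 2 * t 1 + t 2) / 14) +
      Real.cos θ * (t 0 - 3 * ((3 * t 0 + 2 * t 1 + t 2) / 14)) +
      Real.sin θ / Real.sqrt 14 * rot t 0,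
    2 * ((3 * t 0 + 2 * t 1 + t 2) / 14) +
      Real.cos θ * (t 1 - 2 * ((3 * t 0 + 2 * t 1 + t 2) / 14)) +
      Real.sin θ / Real.sqrt 14 * rot t 1,
    (3 * t 0 + 2 * t 1 + t 2) / 14 +
      Real.cos θ * (t 2 - (3 * t 0 + 2 * t 1 + t 2) / 14) +
      Real.sin θ / Real.sqrt 14 * rot t 2]

theorem circ_zero (t : Fin 3 → ℝ) : circ t 0 = t := by
  ext i
  fin_cases i <;> simp [circ]

theorem sqrt14_pos : 0 < Real.sqrt 14 := Real.sqrt_pos.2 (by norm_num)

theorem sqrt14_sq : Real.sqrt 14 ^ 2 = 14 := Real.sq_sqrt (by norm_num)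

theorem circ_dot (t : Fin 3 → ℝ) (θ : ℝ) :
    3 * circ t θ 0 + 2 * circ t θ 1 + circ t θ 2 = 3 * t 0 + 2 * t 1 + t 2 := by
  simp [circ, rot]
  ring

theorem circ_norm (t : Fin 3 → ℝ) (θ : ℝ) :
    circ t θ 0 ^ 2 + circ t θ 1 ^ 2 + circ t θ 2 ^ 2 = t 0 ^ 2 + t 1 ^ 2 + t 2 ^ 2 := by
  have h := Real.sin_sq_add_cos_sq θ
  have hs : (Real.sin θ / Real.sqrt 14) ^ 2 = Real.sin θ ^ 2 / 14 := by
    rw [div_pow, sqrt14_sq]
  set c := Real.cos θ
  set s := Real.sin θ
  set q := s / Real.sqrt 14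
  have hc : 14 * q ^ 2 + c ^ 2 = 1 := by rw [hs]; linarith
  simp only [circ, rot, Matrix.cons_val_zero, Matrix.cons_val_one, Matrix.cons_val]
  set p := (3 * t 0 + 2 * t 1 + t 2) / 14 with hp
  have hp' : t 2 = 14 * p - 3 * t 0 - 2 * t 1 := by rw [hp]; ring
  rw [hp']
  linear_combination
    ((t 0 - 3 * p) ^ 2 + (t 1 - 2 * p) ^ 2 + (13 * p - 3 * t 0 - 2 * t 1) ^ 2) * hc

theorem contDiff_circ (t : Fin 3 → ℝ) : ContDiff ℝ ∞ (circ t) := by
  rw [contDiff_pi]
  intro i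
  fin_cases i
  · exact ((contDiff_const.add (Real.contDiff_cos.mul contDiff_const)).add
      ((Real.contDiff_sin.div_const _).mul contDiff_const))
  · exact ((contDiff_const.add (Real.contDiff_cos.mul contDiff_const)).add
      ((Real.contDiff_sin.div_const _).mul contDiff_const))
  · exact ((contDiff_const.add (Real.contDiff_cos.mul contDiff_const)).add
      ((Real.contDiff_sin.div_const _).mul contDiff_const))

theorem hasDerivAt_circ (t : Fin 3 → ℝ) (l : ℝ) :
    HasDerivAt (fun τ => circ t (Real.sqrt 14 * l * τ)) (l • rot t) 0 := by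
  have h0 : HasDerivAt (fun τ : ℝ => Real.sqrt 14 * l * τ) (Real.sqrt 14 * l) 0 := by
    simpa using (hasDerivAt_id (0 : ℝ)).const_mul (Real.sqrt 14 * l)
  have hc : HasDerivAt (fun τ : ℝ => Real.cos (Real.sqrt 14 * l * τ)) 0 0 := by
    refine h0.cos.congr_deriv ?_
    simp
  have hs : HasDerivAt (fun τ : ℝ => Real.sin (Real.sqrt 14 * l * τ)) (Real.sqrt 14 * l) 0 := by
    refine h0.sin.congr_deriv ?_
    simp
  have key : ∀ a b r : ℝ, HasDerivAt (fun τ : ℝ => a + Real.cos (Real.sqrt 14 * l * τ) * b +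
      Real.sin (Real.sqrt 14 * l * τ) / Real.sqrt 14 * r) (l * r) 0 := by
    intro a b r
    have h1 := ((hasDerivAt_const (0 : ℝ) a).add (hc.mul_const b)).add
      ((hs.div_const (Real.sqrt 14)).mul_const r)
    refine h1.congr_deriv ?_
    have := sqrt14_pos.ne'
    field_simp
    ring
  rw [hasDerivAt_pi]
  intro i
  fin_cases i
  · exact key _ _ _
  · exact key _ _ _
  · exact key _ _ _

theorem circ_aux {a b x y : ℝ}
    (h : 10 * x ^ 2 + 12 * x * y + 5 * y ^ 2 = 10 * a ^ 2 + 12 * a * b + 5 * b ^ 2) :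
    ∃ θ : ℝ, Real.cos θ * a + Real.sin θ / Real.sqrt 14 * (-6 * a - 5 * b) = x ∧
      Real.cos θ * b + Real.sin θ / Real.sqrt 14 * (10 * a + 6 * b) = y := by
  by_cases hD : 10 * a ^ 2 + 12 * a * b + 5 * b ^ 2 = 0
  · have ha : a = 0 := by nlinarith [sq_nonneg (6 * a + 5 * b), sq_nonneg a]
    have hb : b = 0 := by
      rw [ha] at hD
      nlinarith [sq_nonneg b]
    rw [hD] at h
    have hx : x = 0 := by nlinarith [sq_nonneg (6 * x + 5 * y), sq_nonneg x]
    have hy : y = 0 := by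
      rw [hx] at h
      nlinarith [sq_nonneg y]
    refine ⟨0, ?_, ?_⟩
    · rw [ha, hb, hx]; ring
    · rw [ha, hb, hy]; ring
  · set D := 10 * a ^ 2 + 12 * a * b + 5 * b ^ 2 with hDef
    have hq := sqrt14_sq
    have hq0 := sqrt14_pos.ne'
    set q := Real.sqrt 14
    have hαβ : ((10 * a * x + 6 * a * y + 6 * b * x + 5 * b * y) / D) ^ 2 +
        (14 * (a * y - b * x) / (q * D)) ^ 2 = 1 := by
      rw [div_pow, div_pow, mul_pow q, hq]
      field_simp
      have e : D ^ 2 = D * (10 * x ^ 2 + 12 * x * y + 5 * y ^ 2) := by rw [h]; ring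
      rw [e, hDef]
      ring
    have hz : ‖(⟨(10 * a * x + 6 * a * y + 6 * b * x + 5 * b * y) / D,
        14 * (a * y - b * x) / (q * D)⟩ : ℂ)‖ = 1 := by
      rw [Complex.norm_def, Complex.normSq_mk, ← sq, ← sq, hαβ, Real.sqrt_one]
    obtain ⟨θ, hθ⟩ := (Complex.norm_eq_one_iff _).1 hz
    have hc : Real.cos θ = (10 * a * x + 6 * a * y + 6 * b * x + 5 * b * y) / D := by
      have := congrArg Complex.re hθ
      rwa [Complex.exp_ofReal_mul_I_re] at this
    have hs : Real.sin θ = 14 * (a * y - b * x) / (q * D) := by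
      have := congrArg Complex.im hθ
      rwa [Complex.exp_ofReal_mul_I_im] at this
    have hs' : Real.sin θ / q = (a * y - b * x) / D := by
      rw [hs, div_div, show q * D * q = q ^ 2 * D by ring, hq]
      field_simp
    refine ⟨θ, ?_, ?_⟩
    · rw [hs', hc]
      field_simp
      rw [hDef]
      ring
    · rw [hs', hc]
      field_simp
      rw [hDef]
      ring

/-- The circles are exactly the sets on which both functions are constant. -/
theorem exists_circ {s t : Fin 3 → ℝ}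
    (h1 : s 0 ^ 2 + s 1 ^ 2 + s 2 ^ 2 = t 0 ^ 2 + t 1 ^ 2 + t 2 ^ 2)
    (h2 : 3 * s 0 + 2 * s 1 + s 2 = 3 * t 0 + 2 * t 1 + t 2) : ∃ θ, circ t θ = s := by
  set p := (3 * t 0 + 2 * t 1 + t 2) / 14 with hp
  have ht : t 2 = 14 * p - 3 * t 0 - 2 * t 1 := by rw [hp]; ring
  have hs : s 2 = 14 * p - 3 * s 0 - 2 * s 1 := by rw [hp]; linarith
  rw [ht, hs] at h1
  obtain ⟨θ, e1, e2⟩ := circ_aux (a := t 0 - 3 * p) (b := t 1 - 2 * p) (x := s 0 - 3 * p)
    (y := s 1 - 2 * p) (by linear_combination h1)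
  refine ⟨θ, ?_⟩
  ext i
  fin_cases i
  · show 3 * p + Real.cos θ * (t 0 - 3 * p) + Real.sin θ / Real.sqrt 14 * (2 * t 2 - t 1) = s 0
    rw [ht]
    linear_combination e1
  · show 2 * p + Real.cos θ * (t 1 - 2 * p) + Real.sin θ / Real.sqrt 14 * (t 0 - 3 * t 2) = s 1
    rw [ht]
    linear_combination e2
  · show p + Real.cos θ * (t 2 - p) + Real.sin θ / Real.sqrt 14 * (3 * t 1 - 2 * t 0) = s 2
    rw [ht, hs]
    linear_combination -3 * e1 - 2 * e2

theorem eq_of_rot_eq_zero {s t : Fin 3 → ℝ}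
    (h1 : s 0 ^ 2 + s 1 ^ 2 + s 2 ^ 2 = t 0 ^ 2 + t 1 ^ 2 + t 2 ^ 2)
    (h2 : 3 * s 0 + 2 * s 1 + s 2 = 3 * t 0 + 2 * t 1 + t 2) (h3 : rot t = 0) : s = t := by
  have r0 : 2 * t 2 - t 1 = 0 := congrFun h3 0
  have r1 : t 0 - 3 * t 2 = 0 := congrFun h3 1
  have h : (s 0 - t 0) ^ 2 + (s 1 - t 1) ^ 2 + (s 2 - t 2) ^ 2 = 0 := by
    have e1 : t 1 = 2 * t 2 := by linarith
    have e0 : t 0 = 3 * t 2 := by linarith
    rw [e0, e1] at h1 h2 ⊢
    linear_combination h1 - 2 * t 2 * h2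
  have q0 := sq_nonneg (s 0 - t 0)
  have q1 := sq_nonneg (s 1 - t 1)
  have q2 := sq_nonneg (s 2 - t 2)
  ext i
  fin_cases i
  · have : (s 0 - t 0) ^ 2 = 0 := by linarith
    have := pow_eq_zero_iff (two_ne_zero) |>.1 this
    show s 0 = t 0
    linarith
  · have : (s 1 - t 1) ^ 2 = 0 := by linarith
    have := pow_eq_zero_iff (two_ne_zero) |>.1 this
    show s 1 = t 1
    linarith
  · have : (s 2 - t 2) ^ 2 = 0 := by linarith
    have := pow_eq_zero_iff (two_ne_zero) |>.1 this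
    show s 2 = t 2
    linarith

theorem rot_normSq (t : Fin 3 → ℝ) : rot t 0 ^ 2 + rot t 1 ^ 2 + rot t 2 ^ 2 =
    14 * (t 0 ^ 2 + t 1 ^ 2 + t 2 ^ 2) - (3 * t 0 + 2 * t 1 + t 2) ^ 2 := by
  simp [rot]
  ring

theorem rot_eq_zero_iff (t : Fin 3 → ℝ) :
    rot t = 0 ↔ 14 * (t 0 ^ 2 + t 1 ^ 2 + t 2 ^ 2) - (3 * t 0 + 2 * t 1 + t 2) ^ 2 = 0 := by
  rw [← rot_normSq]
  constructor
  · intro h
    rw [h]
    simp
  · intro h
    have q0 := sq_nonneg (rot t 0)
    have q1 := sq_nonneg (rot t 1)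
    have q2 := sq_nonneg (rot t 2)
    ext i
    fin_cases i
    · exact pow_eq_zero_iff (two_ne_zero) |>.1 (show rot t 0 ^ 2 = 0 by linarith)
    · exact pow_eq_zero_iff (two_ne_zero) |>.1 (show rot t 1 ^ 2 = 0 by linarith)
    · exact pow_eq_zero_iff (two_ne_zero) |>.1 (show rot t 2 ^ 2 = 0 by linarith)

/-- Velocities of curves in a leaf project to multiples of the rotation field. -/
theorem exists_rot_of_tangent {z : E12} (hz : z ∈ siegelSet) {v : E12}
    (hv : v ∈ tangentVectors (leaf z) z) : ∃ l : ℝ, fderiv ℝ tm z v = l • rot (tm z) := by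
  obtain ⟨c, hc, hc0, hcv, hev⟩ := hv
  have hd : HasDerivAt c v 0 := by
    rw [← hcv]; exact hasDerivAt_of_contDiff hc 0
  have hz0 : c 0 ∈ siegelSet := by rw [hc0]; exact hz
  have ht := hasDerivAt_tm' hz0 hd
  rw [hc0] at ht
  set w := fderiv ℝ tm z v with hw
  have ht' := hasDerivAt_pi.1 ht
  by_cases hr : rot (tm z) = 0
  · refine ⟨0, ?_⟩
    rw [zero_smul]
    have hconst : (fun s => tm (c s)) =ᶠ[𝓝 0] fun _ => tm z := by
      filter_upwards [hev] with s hs
      exact eq_of_rot_eq_zero hs.2.1 hs.2.2 hr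
    exact ht.unique ((hasDerivAt_const (0 : ℝ) (tm z)).congr_of_eventuallyEq hconst)
  · have hA : tm z 0 * w 0 + tm z 1 * w 1 + tm z 2 * w 2 = 0 := by
      have h1 := (((ht' 0).pow 2).add ((ht' 1).pow 2)).add ((ht' 2).pow 2)
      have h2 : (fun s => F1 (c s)) =ᶠ[𝓝 0] fun _ => F1 z := by
        filter_upwards [hev] with s hs
        exact hs.2.1
      have h3 := h1.unique ((hasDerivAt_const (0 : ℝ) (F1 z)).congr_of_eventuallyEq h2)
      rw [hc0] at h3
      simp at h3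
      linarith
    have hB : 3 * w 0 + 2 * w 1 + w 2 = 0 := by
      have h1 := (((ht' 0).const_mul 3).add ((ht' 1).const_mul 2)).add (ht' 2)
      have h2 : (fun s => F2 (c s)) =ᶠ[𝓝 0] fun _ => F2 z := by
        filter_upwards [hev] with s hs
        exact hs.2.2
      exact h1.unique ((hasDerivAt_const (0 : ℝ) (F2 z)).congr_of_eventuallyEq h2)
    have hn : rot (tm z) 0 ^ 2 + rot (tm z) 1 ^ 2 + rot (tm z) 2 ^ 2 ≠ 0 := by
      rw [rot_normSq]
      intro h
      exact hr ((rot_eq_zero_iff _).2 h)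
    refine ⟨(w 0 * rot (tm z) 0 + w 1 * rot (tm z) 1 + w 2 * rot (tm z) 2) /
      (rot (tm z) 0 ^ 2 + rot (tm z) 1 ^ 2 + rot (tm z) 2 ^ 2), ?_⟩
    have key : ∀ i, w i * (rot (tm z) 0 ^ 2 + rot (tm z) 1 ^ 2 + rot (tm z) 2 ^ 2) =
        (w 0 * rot (tm z) 0 + w 1 * rot (tm z) 1 + w 2 * rot (tm z) 2) * rot (tm z) i := by
      intro i
      have hw2 : w 2 = -3 * w 0 - 2 * w 1 := by linarith
      rw [hw2] at hA
      fin_cases i
      · show w 0 * _ = _ * rot (tm z) 0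
        rw [hw2]
        simp only [rot, Matrix.cons_val_zero, Matrix.cons_val_one, Matrix.cons_val]
        linear_combination ((tm z 0 - 3 * tm z 2) - 2 * (3 * tm z 1 - 2 * tm z 0)) * hA
      · show w 1 * _ = _ * rot (tm z) 1
        rw [hw2]
        simp only [rot, Matrix.cons_val_zero, Matrix.cons_val_one, Matrix.cons_val]
        linear_combination (3 * (3 * tm z 1 - 2 * tm z 0) - (2 * tm z 2 - tm z 1)) * hA
      · show w 2 * _ = _ * rot (tm z) 2
        rw [hw2]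
        simp only [rot, Matrix.cons_val_zero, Matrix.cons_val_one, Matrix.cons_val]
        linear_combination (2 * (2 * tm z 2 - tm z 1) - 3 * (tm z 0 - 3 * tm z 2)) * hA
    ext i
    rw [Pi.smul_apply, smul_eq_mul, div_mul_eq_mul_div, eq_div_iff hn]
    exact key i

/-- A vector which projects to a multiple of the rotation field is the velocity of a curve in
the leaf. -/
theorem tangent_of_rot {z : E12} (hz : z ∈ siegelSet) {v : E12} {l : ℝ}
    (hv : fderiv ℝ tm z v = l • rot (tm z)) : v ∈ tangentVectors (leaf z) z := by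
  obtain ⟨n, b, hnb⟩ := exists_fld hz v
  rw [hv] at hnb
  set ρ : ℝ → Fin 3 → ℝ := fun τ => circ (tm z) (Real.sqrt 14 * l * τ) - tm z with hρ
  have hρ0 : ρ 0 = 0 := by
    rw [hρ]
    simp only [mul_zero]
    rw [circ_zero, sub_self]
  have hρd : HasDerivAt ρ (l • rot (tm z)) 0 := (hasDerivAt_circ (tm z) l).sub_const _
  have hρs : ContDiff ℝ ∞ ρ :=
    ((contDiff_circ (tm z)).comp (contDiff_const.mul contDiff_id)).sub contDiff_const
  refine ⟨fun τ => aff (ut (fun i => Real.exp (ρ τ i / 2)) (τ • n)) (τ • b) z, ?_, ?_, ?_, ?_⟩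
  · rw [contDiff_iff_contDiffAt]
    intro τ
    have ha : ContDiff ℝ ∞ (fun τ : ℝ => fun i => Real.exp (ρ τ i / 2)) := by
      rw [contDiff_pi] at hρs ⊢
      intro i
      exact ((hρs i).div_const 2).exp
    exact contDiffAt_aff ha.contDiffAt (contDiff_id.smul contDiff_const).contDiffAt
      (contDiff_id.smul contDiff_const).contDiffAt contDiffAt_const
  · have e0 : (fun i => Real.exp (ρ 0 i / 2)) = (1 : Fin 3 → ℝ) := by
      ext i; simp [hρ0]
    show aff (ut (fun i => Real.exp (ρ 0 i / 2)) ((0 : ℝ) • n)) ((0 : ℝ) • b) z = z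
    rw [e0, zero_smul, zero_smul, ut_one]
    unfold aff
    rw [actE_one]
    simp
  · rw [(hasDerivAt_aff_curve hρd hρ0 n b z).deriv]
    exact hnb.symm
  · refine Filter.Eventually.of_forall fun τ => ?_
    have ht : tm (aff (ut (fun i => Real.exp (ρ τ i / 2)) (τ • n)) (τ • b) z) =
        circ (tm z) (Real.sqrt 14 * l * τ) := by
      rw [tm_diag _ _ _ hz, hρ]
      exact add_sub_cancel _ _
    refine ⟨aff_mem _ _ (by positivity) _ hz, ?_, ?_⟩
    · unfold F1
      rw [ht, circ_norm]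
    · unfold F2
      rw [ht, circ_dot]

end Pool.Agent.Lib.MP_08f71d_gt
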