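import Pool.Agent.Lib.MP_08f71d_gt.Coord

/-!
# The invariant metric on the Siegel upper half space
-/

set_option autoImplicit false

open scoped ContDiff Topology Matrix

namespace Pool.Agent.Lib.MP_08f71d_gt

attribute [local instance] Matrix.linftyOpNormedRing Matrix.linftyOpNormedAlgebra

/-- `sym` as a continuous linear map. -/
noncomputable def symL : (Fin 6 → ℝ) →L[ℝ] Matrix (Fin 3) (Fin 3) ℝ :=
  LinearMap.toContinuousLinearMap
    { toFun := sym, map_add' := sym_add, map_smul' := fun r a => by simp [sym_smul] }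

theorem symL_apply (a : Fin 6 → ℝ) : symL a = sym a := rfl

theorem siegel_isUnit {z : E12} (hz : z ∈ siegelSet) : IsUnit (sym z.2) :=
  Matrix.PosDef.isUnit hz

theorem contDiffAt_inv {z : E12} (hz : z ∈ siegelSet) :
    ContDiffAt ℝ ∞ (fun p : E12 => (sym p.2)⁻¹) z := by
  obtain ⟨u, hu⟩ := siegel_isUnit hz
  have h1 : ContDiffAt ℝ ∞ (fun p : E12 => symL p.2) z :=
    (symL.contDiff.comp contDiff_snd).contDiffAt
  have h2 : ContDiffAt ℝ ∞ (Ring.inverse : Matrix (Fin 3) (Fin 3) ℝ → _) (symL z.2) := by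
    rw [symL_apply, ← hu]
    exact contDiffAt_ringInverse ℝ u
  have h3 := h2.comp z h1
  have h4 : (fun p : E12 => (sym p.2)⁻¹) = Ring.inverse ∘ fun p : E12 => symL p.2 := by
    ext1 p
    rw [Matrix.nonsing_inv_eq_ringInverse]
    rfl
  rw [h4]
  exact h3

theorem hasDerivAt_inv {c : ℝ → E12} {c' : E12} {t : ℝ} (hz : c t ∈ siegelSet)
    (hc : HasDerivAt c c' t) :
    HasDerivAt (fun s => (sym (c s).2)⁻¹) (-((sym (c t).2)⁻¹ * sym c'.2 * (sym (c t).2)⁻¹)) t := by
  obtain ⟨u, hu⟩ := siegel_isUnit hz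
  have h0 : HasDerivAt (fun s => symL (c s).2) (symL c'.2) t := by
    have := (symL.comp (ContinuousLinearMap.snd ℝ (Fin 6 → ℝ) (Fin 6 → ℝ))).hasFDerivAt.comp_hasDerivAt
      t hc
    exact this
  have h2 : HasFDerivAt (Ring.inverse : Matrix (Fin 3) (Fin 3) ℝ → _)
      (-ContinuousLinearMap.mulLeftRight ℝ _ (↑u⁻¹ : Matrix (Fin 3) (Fin 3) ℝ)
        (↑u⁻¹ : Matrix (Fin 3) (Fin 3) ℝ)) (symL (c t).2) := by
    rw [symL_apply, ← hu]
    exact hasFDerivAt_ringInverse u
  have h3 := h2.comp_hasDerivAt t h0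
  have h4 : (fun s => (sym (c s).2)⁻¹) = Ring.inverse ∘ fun s => symL (c s).2 := by
    ext1 p
    rw [Matrix.nonsing_inv_eq_ringInverse]
    rfl
  rw [h4]
  refine h3.congr_deriv ?_
  have h5 : (sym (c t).2)⁻¹ = (↑u⁻¹ : Matrix (Fin 3) (Fin 3) ℝ) := by
    rw [← hu, Matrix.coe_units_inv]
  rw [h5]
  simp [symL_apply]

/-- The trace as a continuous linear map. -/
noncomputable def traceL : Matrix (Fin 3) (Fin 3) ℝ →L[ℝ] ℝ :=
  (Matrix.traceLinearMap (Fin 3) ℝ ℝ).toContinuousLinearMap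

theorem traceL_apply (A : Matrix (Fin 3) (Fin 3) ℝ) : traceL A = A.trace := rfl

theorem siegelMetric_eq (p v w : E12) : siegelMetric p v w =
    traceL ((sym p.2)⁻¹ * sym v.1 * (sym p.2)⁻¹ * sym w.1) +
    traceL ((sym p.2)⁻¹ * sym v.2 * (sym p.2)⁻¹ * sym w.2) := rfl

theorem contDiffAt_siegelMetric {z : E12} (hz : z ∈ siegelSet) (v w : E12) :
    ContDiffAt ℝ ∞ (fun p => siegelMetric p v w) z := by
  have h := contDiffAt_inv hz
  have hc : ∀ V W : Matrix (Fin 3) (Fin 3) ℝ, ContDiffAt ℝ ∞ (fun p : E12 =>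
      traceL ((sym p.2)⁻¹ * V * (sym p.2)⁻¹ * W)) z := by
    intro V W
    exact traceL.contDiff.contDiffAt.comp z
      (((h.mul contDiffAt_const).mul h).mul contDiffAt_const)
  exact (hc _ _).add (hc _ _)

theorem hasDerivAt_siegelMetric {c : ℝ → E12} {c' : E12} {t : ℝ} (hz : c t ∈ siegelSet)
    (hc : HasDerivAt c c' t) (v w : E12) :
    HasDerivAt (fun s => siegelMetric (c s) v w)
      (-(((sym (c t).2)⁻¹ * sym c'.2 * (sym (c t).2)⁻¹ * sym v.1 * (sym (c t).2)⁻¹ *
            sym w.1).trace +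
        ((sym (c t).2)⁻¹ * sym v.1 * (sym (c t).2)⁻¹ * sym c'.2 * (sym (c t).2)⁻¹ *
            sym w.1).trace +
        ((sym (c t).2)⁻¹ * sym c'.2 * (sym (c t).2)⁻¹ * sym v.2 * (sym (c t).2)⁻¹ *
            sym w.2).trace +
        ((sym (c t).2)⁻¹ * sym v.2 * (sym (c t).2)⁻¹ * sym c'.2 * (sym (c t).2)⁻¹ *
            sym w.2).trace)) t := by
  have h := hasDerivAt_inv hz hc
  have hcV : ∀ V W : Matrix (Fin 3) (Fin 3) ℝ, HasDerivAt (fun s =>
      traceL ((sym (c s).2)⁻¹ * V * (sym (c s).2)⁻¹ * W))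
      (-(((sym (c t).2)⁻¹ * sym c'.2 * (sym (c t).2)⁻¹ * V * (sym (c t).2)⁻¹ *
            W).trace +
        ((sym (c t).2)⁻¹ * V * (sym (c t).2)⁻¹ * sym c'.2 * (sym (c t).2)⁻¹ *
            W).trace)) t := by
    intro V W
    have h1 := traceL.hasFDerivAt.comp_hasDerivAt t (((h.mul_const V).mul h).mul_const W)
    refine h1.congr_deriv ?_
    rw [← traceL_apply, ← traceL_apply, ← map_add, ← map_neg]
    congr 1
    noncomm_ring
  have h2 := (hcV (sym v.1) (sym w.1)).add (hcV (sym v.2) (sym w.2))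
  refine h2.congr_deriv ?_
  ring

theorem sym_dg (d : Fin 3 → ℝ) : sym (dg d).2 = !![d 0, 0, 0; 0, d 1, 0; 0, 0, d 2] := by
  simp [dg, sym]

theorem inv_dg {d : Fin 3 → ℝ} (hd : ∀ i, 0 < d i) :
    (sym (dg d).2)⁻¹ = !![(d 0)⁻¹, 0, 0; 0, (d 1)⁻¹, 0; 0, 0, (d 2)⁻¹] := by
  apply Matrix.inv_eq_right_inv
  rw [sym_dg]
  have h0 := (hd 0).ne'
  have h1 := (hd 1).ne'
  have h2 := (hd 2).ne'
  ext i j
  fin_cases i <;> fin_cases j <;> simp [Matrix.mul_apply, Fin.sum_univ_three, h0, h1, h2]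

/-- The metric at a diagonal point, in one of the two components. -/
noncomputable def dq (d : Fin 3 → ℝ) (v w : Fin 6 → ℝ) : ℝ :=
  v 0 * w 0 / (d 0 * d 0) + v 3 * w 3 / (d 1 * d 1) + v 5 * w 5 / (d 2 * d 2) +
    2 * (v 1 * w 1 / (d 0 * d 1)) + 2 * (v 2 * w 2 / (d 0 * d 2)) + 2 * (v 4 * w 4 / (d 1 * d 2))

theorem siegelMetric_dg {d : Fin 3 → ℝ} (hd : ∀ i, 0 < d i) (v w : E12) :
    siegelMetric (dg d) v w = dq d v.1 w.1 + dq d v.2 w.2 := by
  unfold siegelMetric
  rw [inv_dg hd]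
  have key : ∀ a b : Fin 6 → ℝ,
      (!![(d 0)⁻¹, 0, 0; 0, (d 1)⁻¹, 0; 0, 0, (d 2)⁻¹] * sym a *
        !![(d 0)⁻¹, 0, 0; 0, (d 1)⁻¹, 0; 0, 0, (d 2)⁻¹] * sym b).trace = dq d a b := by
    intro a b
    simp only [Matrix.trace, Matrix.diag, Matrix.mul_apply, Fin.sum_univ_three]
    simp [sym, dq]
    ring
  rw [key, key]

theorem siegelMetric_symm (p v w : E12) : siegelMetric p v w = siegelMetric p w v := by
  unfold siegelMetric
  have key : ∀ R V W : Matrix (Fin 3) (Fin 3) ℝ,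
      (R * V * R * W).trace = (R * W * R * V).trace := by
    intro R V W
    rw [Matrix.mul_assoc (R * V), Matrix.trace_mul_comm, ← Matrix.mul_assoc]
  rw [key, key _ (sym v.2)]

theorem siegelMetric_add (p v w z : E12) :
    siegelMetric p (v + w) z = siegelMetric p v z + siegelMetric p w z := by
  unfold siegelMetric
  rw [Prod.fst_add, Prod.snd_add, sym_add, sym_add]
  simp only [Matrix.mul_add, Matrix.add_mul, Matrix.trace_add]
  ring

theorem siegelMetric_smul (p : E12) (a : ℝ) (v z : E12) :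
    siegelMetric p (a • v) z = a * siegelMetric p v z := by
  unfold siegelMetric
  rw [Prod.smul_fst, Prod.smul_snd, sym_smul, sym_smul]
  simp only [Matrix.mul_smul, Matrix.smul_mul, Matrix.trace_smul, smul_eq_mul]
  ring

theorem isUnit_det_ut (a n : Fin 3 → ℝ) (ha : a 0 * a 1 * a 2 ≠ 0) : IsUnit (ut a n).det := by
  rw [det_ut]
  exact isUnit_iff_ne_zero.2 ha

theorem dq_nonneg {d : Fin 3 → ℝ} (hd : ∀ i, 0 < d i) (v : Fin 6 → ℝ) : 0 ≤ dq d v v := by
  have h0 := hd 0
  have h1 := hd 1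
  have h2 := hd 2
  unfold dq
  have e : ∀ x : ℝ, 0 ≤ x * x := mul_self_nonneg
  have q : ∀ i, 0 ≤ v i * v i := fun i => mul_self_nonneg _
  have := q 0
  have := q 1
  have := q 2
  have := q 3
  have := q 4
  have := q 5
  positivity

theorem dq_eq_zero {d : Fin 3 → ℝ} (hd : ∀ i, 0 < d i) {v : Fin 6 → ℝ} (h : dq d v v = 0) :
    v = 0 := by
  have h0 := hd 0
  have h1 := hd 1
  have h2 := hd 2
  have a0 : 0 ≤ v 0 * v 0 / (d 0 * d 0) := by have := mul_self_nonneg (v 0); positivity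
  have a1 : 0 ≤ v 3 * v 3 / (d 1 * d 1) := by have := mul_self_nonneg (v 3); positivity
  have a2 : 0 ≤ v 5 * v 5 / (d 2 * d 2) := by have := mul_self_nonneg (v 5); positivity
  have a3 : 0 ≤ v 1 * v 1 / (d 0 * d 1) := by have := mul_self_nonneg (v 1); positivity
  have a4 : 0 ≤ v 2 * v 2 / (d 0 * d 2) := by have := mul_self_nonneg (v 2); positivity
  have a5 : 0 ≤ v 4 * v 4 / (d 1 * d 2) := by have := mul_self_nonneg (v 4); positivity
  unfold dq at h
  have b0 : v 0 * v 0 / (d 0 * d 0) = 0 := by linarith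
  have b1 : v 3 * v 3 / (d 1 * d 1) = 0 := by linarith
  have b2 : v 5 * v 5 / (d 2 * d 2) = 0 := by linarith
  have b3 : v 1 * v 1 / (d 0 * d 1) = 0 := by linarith
  have b4 : v 2 * v 2 / (d 0 * d 2) = 0 := by linarith
  have b5 : v 4 * v 4 / (d 1 * d 2) = 0 := by linarith
  have key : ∀ x y : ℝ, 0 < y → x * x / y = 0 → x = 0 := by
    intro x y hy hx
    rw [div_eq_zero_iff] at hx
    rcases hx with hx | hx
    · exact mul_self_eq_zero.1 hx
    · exact absurd hx hy.ne'
  ext i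
  fin_cases i
  · exact key _ _ (by positivity) b0
  · exact key _ _ (by positivity) b3
  · exact key _ _ (by positivity) b4
  · exact key _ _ (by positivity) b1
  · exact key _ _ (by positivity) b5
  · exact key _ _ (by positivity) b2

theorem siegelMetric_pos {z : E12} (hz : z ∈ siegelSet) {v : E12} (hv : v ≠ 0) :
    0 < siegelMetric z v v := by
  obtain ⟨n, b, d, hd, rfl⟩ := exists_decomp hz
  have hu : IsUnit (ut 1 n).det := isUnit_det_ut 1 n (by simp)
  have e : v = actE (ut 1 n) (actE (ut 1 n)⁻¹ v) := (actE_inv_right hu v).symm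
  rw [e, siegelMetric_aff hu, siegelMetric_dg hd]
  set w := actE (ut 1 n)⁻¹ v
  have hw : w ≠ 0 := by
    intro h
    apply hv
    rw [e, h, map_zero]
  have p1 := dq_nonneg hd w.1
  have p2 := dq_nonneg hd w.2
  rcases (add_nonneg p1 p2).lt_or_eq with h | h
  · exact h
  · exfalso
    apply hw
    apply Prod.ext
    · exact dq_eq_zero hd (by linarith)
    · exact dq_eq_zero hd (by linarith)

theorem continuous_m1 : Continuous m1 := by unfold m1; fun_prop

theorem continuous_m2 : Continuous m2 := by unfold m2; fun_prop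

theorem continuous_m3 : Continuous m3 := by unfold m3; fun_prop

theorem isOpen_siegelSet : IsOpen siegelSet := by
  have : siegelSet = {z | 0 < m1 z} ∩ ({z | 0 < m2 z} ∩ {z | 0 < m3 z}) := by
    ext z
    exact mem_siegelSet_iff z
  rw [this]
  exact (isOpen_lt continuous_const continuous_m1).inter
    ((isOpen_lt continuous_const continuous_m2).inter
      (isOpen_lt continuous_const continuous_m3))

/-- The Siegel upper half space of degree 3 with its invariant metric. -/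
noncomputable def siegel : RiemannianDomain E12 where
  carrier := siegelSet
  metric := siegelMetric
  isOpen := isOpen_siegelSet
  metric_add := siegelMetric_add
  metric_smul := siegelMetric_smul
  metric_symm := siegelMetric_symm
  metric_pos := fun _ hx _ hv => siegelMetric_pos hx hv
  smooth := fun v w _ hx => (contDiffAt_siegelMetric hx v w).contDiffWithinAt

theorem fderiv_form_siegel {z : E12} (hz : z ∈ siegelSet) (u v w : E12) :
    fderiv ℝ (form siegel) z u v w =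
      -(((sym z.2)⁻¹ * sym u.2 * (sym z.2)⁻¹ * sym v.1 * (sym z.2)⁻¹ * sym w.1).trace +
        ((sym z.2)⁻¹ * sym v.1 * (sym z.2)⁻¹ * sym u.2 * (sym z.2)⁻¹ * sym w.1).trace +
        ((sym z.2)⁻¹ * sym u.2 * (sym z.2)⁻¹ * sym v.2 * (sym z.2)⁻¹ * sym w.2).trace +
        ((sym z.2)⁻¹ * sym v.2 * (sym z.2)⁻¹ * sym u.2 * (sym z.2)⁻¹ * sym w.2).trace) := by
  have f0 : HasDerivAt (fun τ : ℝ => z + τ • u) u 0 := by
    have := ((hasDerivAt_id (0 : ℝ)).smul_const u).const_add z
    simpa using this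
  have h1 := hasDerivAt_metric siegel (c := fun τ : ℝ => z + τ • u) (t := 0)
    (by simpa using (show z ∈ siegel.carrier from hz)) f0 (hasDerivAt_const (0 : ℝ) v)
    (hasDerivAt_const (0 : ℝ) w)
  have h2 := hasDerivAt_siegelMetric (c := fun τ : ℝ => z + τ • u) (t := 0)
    (by simpa using hz) f0 v w
  have h3 := h1.unique h2
  have z1 : siegel.metric z 0 w = 0 := by
    rw [siegel.metric_symm]; exact metric_zero_right _ _ _
  simp only [zero_smul, add_zero, metric_zero_right, z1] at h3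
  exact h3

end Pool.Agent.Lib.MP_08f71d_gt
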