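import Pool.Agent.Lib.MP_08f71d_gt.Metric

/-!
# The horospherical projection

The projection to `ℝ³` whose fibres are the orbits of the unipotent affine maps.
-/

set_option autoImplicit false

open scoped ContDiff Topology Matrix

namespace Pool.Agent.Lib.MP_08f71d_gt

/-- The projection to `ℝ³`. -/
noncomputable def tm (z : E12) : Fin 3 → ℝ :=
  ![Real.log (m3 z) - Real.log (m2 z), Real.log (m2 z) - Real.log (m1 z), Real.log (m1 z)]

theorem contDiff_m1 : ContDiff ℝ ∞ m1 := by unfold m1; fun_prop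

theorem contDiff_m2 : ContDiff ℝ ∞ m2 := by unfold m2; fun_prop

theorem contDiff_m3 : ContDiff ℝ ∞ m3 := by unfold m3; fun_prop

theorem contDiffAt_tm {z : E12} (hz : z ∈ siegelSet) : ContDiffAt ℝ ∞ tm z := by
  obtain ⟨h1, h2, h3⟩ := (mem_siegelSet_iff z).1 hz
  have e1 : ContDiffAt ℝ ∞ (fun z => Real.log (m1 z)) z := contDiff_m1.contDiffAt.log h1.ne'
  have e2 : ContDiffAt ℝ ∞ (fun z => Real.log (m2 z)) z := contDiff_m2.contDiffAt.log h2.ne'
  have e3 : ContDiffAt ℝ ∞ (fun z => Real.log (m3 z)) z := contDiff_m3.contDiffAt.log h3.ne'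
  rw [contDiffAt_pi]
  intro i
  fin_cases i
  · exact e3.sub e2
  · exact e2.sub e1
  · exact e1

theorem hasFDerivAt_tm {z : E12} (hz : z ∈ siegelSet) : HasFDerivAt tm (fderiv ℝ tm z) z :=
  ((contDiffAt_tm hz).differentiableAt (by simp)).hasFDerivAt

/-- The derivative of the first minor. -/
def dm1 (_ v : E12) : ℝ := v.2 5

/-- The derivative of the second minor. -/
def dm2 (z v : E12) : ℝ := v.2 3 * z.2 5 + z.2 3 * v.2 5 - 2 * z.2 4 * v.2 4

/-- The derivative of the determinant. -/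
def dm3 (z v : E12) : ℝ :=
  v.2 0 * z.2 3 * z.2 5 + z.2 0 * v.2 3 * z.2 5 + z.2 0 * z.2 3 * v.2 5 +
    2 * (v.2 1 * z.2 2 * z.2 4 + z.2 1 * v.2 2 * z.2 4 + z.2 1 * z.2 2 * v.2 4) -
    (v.2 0 * z.2 4 ^ 2 + 2 * z.2 0 * z.2 4 * v.2 4) -
    (v.2 3 * z.2 2 ^ 2 + 2 * z.2 3 * z.2 2 * v.2 2) -
    (v.2 5 * z.2 1 ^ 2 + 2 * z.2 5 * z.2 1 * v.2 1)

theorem hasDerivAt_coord {c : ℝ → E12} {c' : E12} {t : ℝ} (hc : HasDerivAt c c' t) (i : Fin 6) :
    HasDerivAt (fun s => (c s).2 i) (c'.2 i) t := by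
  have h1 : HasDerivAt (fun s => (c s).2) c'.2 t :=
    (ContinuousLinearMap.snd ℝ (Fin 6 → ℝ) (Fin 6 → ℝ)).hasFDerivAt.comp_hasDerivAt t hc
  exact (hasDerivAt_pi.1 h1) i

theorem hasDerivAt_m1 {c : ℝ → E12} {c' : E12} {t : ℝ} (hc : HasDerivAt c c' t) :
    HasDerivAt (fun s => m1 (c s)) (dm1 (c t) c') t := hasDerivAt_coord hc 5

theorem hasDerivAt_m2 {c : ℝ → E12} {c' : E12} {t : ℝ} (hc : HasDerivAt c c' t) :
    HasDerivAt (fun s => m2 (c s)) (dm2 (c t) c') t := by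
  have h3 := hasDerivAt_coord hc 3
  have h4 := hasDerivAt_coord hc 4
  have h5 := hasDerivAt_coord hc 5
  refine ((h3.mul h5).sub (h4.pow 2)).congr_deriv ?_
  simp [dm2]

theorem hasDerivAt_m3 {c : ℝ → E12} {c' : E12} {t : ℝ} (hc : HasDerivAt c c' t) :
    HasDerivAt (fun s => m3 (c s)) (dm3 (c t) c') t := by
  have h0 := hasDerivAt_coord hc 0
  have h1 := hasDerivAt_coord hc 1
  have h2 := hasDerivAt_coord hc 2
  have h3 := hasDerivAt_coord hc 3
  have h4 := hasDerivAt_coord hc 4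
  have h5 := hasDerivAt_coord hc 5
  refine (((((h0.mul h3).mul h5).add ((((hasDerivAt_const t (2 : ℝ)).mul h1).mul h2).mul h4)).sub
    (h0.mul (h4.pow 2))).sub (h3.mul (h2.pow 2))).sub (h5.mul (h1.pow 2)) |>.congr_deriv ?_
  simp [dm3]
  ring

theorem hasDerivAt_tm {c : ℝ → E12} {c' : E12} {t : ℝ} (hz : c t ∈ siegelSet)
    (hc : HasDerivAt c c' t) :
    HasDerivAt (fun s => tm (c s)) ![dm3 (c t) c' / m3 (c t) - dm2 (c t) c' / m2 (c t),
      dm2 (c t) c' / m2 (c t) - dm1 (c t) c' / m1 (c t), dm1 (c t) c' / m1 (c t)] t := by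
  obtain ⟨p1, p2, p3⟩ := (mem_siegelSet_iff _).1 hz
  have e1 := (hasDerivAt_m1 hc).log p1.ne'
  have e2 := (hasDerivAt_m2 hc).log p2.ne'
  have e3 := (hasDerivAt_m3 hc).log p3.ne'
  rw [hasDerivAt_pi]
  intro i
  fin_cases i
  · exact e3.sub e2
  · exact e2.sub e1
  · exact e1

theorem hasDerivAt_line (z u : E12) : HasDerivAt (fun τ : ℝ => z + τ • u) u 0 := by
  have := ((hasDerivAt_id (0 : ℝ)).smul_const u).const_add z
  simpa using this

theorem fderiv_tm {z : E12} (hz : z ∈ siegelSet) (v : E12) :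
    fderiv ℝ tm z v = ![dm3 z v / m3 z - dm2 z v / m2 z,
      dm2 z v / m2 z - dm1 z v / m1 z, dm1 z v / m1 z] := by
  have h1 := hasDerivAt_tm (c := fun τ : ℝ => z + τ • v) (t := 0) (by simpa using hz)
    (hasDerivAt_line z v)
  have h2 : HasDerivAt (fun τ : ℝ => tm (z + τ • v)) (fderiv ℝ tm z v) 0 :=
    (hasFDerivAt_tm hz).comp_hasDerivAt_of_eq (0 : ℝ) (hasDerivAt_line z v) (by simp)
  have h3 := h2.unique h1
  simpa using h3

theorem hasDerivAt_tm' {c : ℝ → E12} {c' : E12} {t : ℝ} (hz : c t ∈ siegelSet)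
    (hc : HasDerivAt c c' t) : HasDerivAt (fun s => tm (c s)) (fderiv ℝ tm (c t) c') t := by
  rw [fderiv_tm hz]
  exact hasDerivAt_tm hz hc

/-- Unipotent affine maps preserve the projection. -/
theorem tm_unip (n : Fin 3 → ℝ) (b : Fin 6 → ℝ) (z : E12) : tm (aff (ut 1 n) b z) = tm z := by
  unfold tm
  rw [m1_aff, m2_aff, m3_aff]
  simp

/-- Diagonal affine maps translate the projection. -/
theorem tm_diag (w n : Fin 3 → ℝ) (b : Fin 6 → ℝ) {z : E12} (hz : z ∈ siegelSet) :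
    tm (aff (ut (fun i => Real.exp (w i / 2)) n) b z) = tm z + w := by
  obtain ⟨p1, p2, p3⟩ := (mem_siegelSet_iff _).1 hz
  have e : ∀ i, Real.exp (w i / 2) ^ 2 = Real.exp (w i) := by
    intro i
    rw [← Real.exp_nat_mul]
    congr 1
    push_cast
    ring
  have l1 : Real.log (m1 (aff (ut (fun i => Real.exp (w i / 2)) n) b z)) =
      Real.log (m1 z) + w 2 := by
    rw [m1_aff, e, Real.log_mul (Real.exp_pos _).ne' p1.ne', Real.log_exp]
    ring
  have l2 : Real.log (m2 (aff (ut (fun i => Real.exp (w i / 2)) n) b z)) =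
      Real.log (m2 z) + w 1 + w 2 := by
    rw [m2_aff, mul_pow, e, e, Real.log_mul (by positivity) p2.ne',
      Real.log_mul (Real.exp_pos _).ne' (Real.exp_pos _).ne', Real.log_exp, Real.log_exp]
    ring
  have l3 : Real.log (m3 (aff (ut (fun i => Real.exp (w i / 2)) n) b z)) =
      Real.log (m3 z) + w 0 + w 1 + w 2 := by
    rw [m3_aff, mul_pow, mul_pow, e, e, e, Real.log_mul (by positivity) p3.ne',
      Real.log_mul (by positivity) (Real.exp_pos _).ne',
      Real.log_mul (Real.exp_pos _).ne' (Real.exp_pos _).ne', Real.log_exp, Real.log_exp,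
      Real.log_exp]
    ring
  unfold tm
  rw [l1, l2, l3]
  ext i
  fin_cases i <;> simp <;> ring

theorem tm_dg (w : Fin 3 → ℝ) : tm (dg fun i => Real.exp (w i)) = w := by
  have e1 : m1 (dg fun i => Real.exp (w i)) = Real.exp (w 2) := by simp [m1, dg]
  have e2 : m2 (dg fun i => Real.exp (w i)) = Real.exp (w 1 + w 2) := by
    simp [m2, dg, Real.exp_add]
  have e3 : m3 (dg fun i => Real.exp (w i)) = Real.exp (w 0 + w 1 + w 2) := by
    simp [m3, dg, Real.exp_add]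
  unfold tm
  rw [e1, e2, e3, Real.log_exp, Real.log_exp, Real.log_exp]
  ext i
  fin_cases i <;> simp

/-- Every point is obtained from a diagonal point by a unipotent affine map. -/
theorem exists_decomp' {z : E12} (hz : z ∈ siegelSet) :
    ∃ (n : Fin 3 → ℝ) (b : Fin 6 → ℝ),
      z = aff (ut 1 n) b (dg fun i => Real.exp (tm z i)) := by
  obtain ⟨n, b, d, hd, hz'⟩ := exists_decomp hz
  refine ⟨n, b, ?_⟩
  have h1 : d = fun i => Real.exp (Real.log (d i)) := by
    ext i; rw [Real.exp_log (hd i)]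
  have h2 : tm z = fun i => Real.log (d i) := by
    rw [hz', tm_unip, h1, tm_dg]
    ext i
    rw [Real.log_exp]
  rw [h2]
  rw [← h1]
  exact hz'

end Pool.Agent.Lib.MP_08f71d_gt
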