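import Pool.Agent.Lib.MP_08f71d_gt.Foliation

/-!
# Flat sections
-/

set_option autoImplicit false

open scoped ContDiff Topology Matrix

namespace Pool.Agent.Lib.MP_08f71d_gt

/-- The trace of a triple product of symmetric matrices, weighted by a diagonal matrix. -/
def tq (r : Fin 3 → ℝ) (a b c : Fin 6 → ℝ) : ℝ :=
  ∑ i, ∑ j, ∑ k, r i * r j * r k * sym a i j * sym b j k * sym c k i

theorem trace_three (r : Fin 3 → ℝ) (a b c : Fin 6 → ℝ) :
    (!![r 0, 0, 0; 0, r 1, 0; 0, 0, r 2] * sym a * !![r 0, 0, 0; 0, r 1, 0; 0, 0, r 2] * sym b *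
      !![r 0, 0, 0; 0, r 1, 0; 0, 0, r 2] * sym c).trace = tq r a b c := by
  simp only [tq, Matrix.trace_fin_three, Matrix.mul_apply, Fin.sum_univ_three]
  simp [sym]
  ring

theorem siegelMetric_of_snd {z : E12} {d : Fin 3 → ℝ} (hd : ∀ i, 0 < d i)
    (hz : z.2 = (dg d).2) (v w : E12) :
    siegelMetric z v w = dq d v.1 w.1 + dq d v.2 w.2 := by
  rw [← siegelMetric_dg hd]
  unfold siegelMetric
  rw [hz]

theorem mem_of_snd {z : E12} {d : Fin 3 → ℝ} (hd : ∀ i, 0 < d i)
    (hz : z.2 = (dg d).2) : z ∈ siegelSet := by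
  show (sym z.2).PosDef
  rw [hz]
  exact dg_mem hd

theorem fderiv_form_of_snd {z : E12} {d : Fin 3 → ℝ} (hd : ∀ i, 0 < d i)
    (hz : z.2 = (dg d).2) (u v w : E12) :
    fderiv ℝ (form siegel) z u v w =
      -(tq (fun i => (d i)⁻¹) u.2 v.1 w.1 + tq (fun i => (d i)⁻¹) v.1 u.2 w.1 +
        tq (fun i => (d i)⁻¹) u.2 v.2 w.2 + tq (fun i => (d i)⁻¹) v.2 u.2 w.2) := by
  rw [fderiv_form_siegel (mem_of_snd hd hz), hz, inv_dg hd]
  simp only [← trace_three]

theorem preservesMetric_aff (a n : Fin 3 → ℝ) (ha : a 0 * a 1 * a 2 ≠ 0) (b : Fin 6 → ℝ) :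
    PreservesMetric siegel (aff (ut a n) b) := by
  refine ⟨?_, fun x hx => aff_mem a n ha b hx, ?_⟩
  · exact ((actE (ut a n)).contDiff.add contDiff_const).contDiffOn
  · intro x _ v w
    rw [(hasFDerivAt_aff (ut a n) b x).fderiv]
    exact siegelMetric_aff (isUnit_det_ut a n ha) b x v w

theorem fderiv_tm_aff (n : Fin 3 → ℝ) (b : Fin 6 → ℝ) {x : E12} (hx : x ∈ siegelSet) (k : E12) :
    fderiv ℝ tm (aff (ut 1 n) b x) (actE (ut 1 n) k) = fderiv ℝ tm x k := by
  have h1 : HasFDerivAt tm (fderiv ℝ tm (aff (ut 1 n) b x)) (aff (ut 1 n) b x) :=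
    hasFDerivAt_tm (aff_mem 1 n (by simp) b hx)
  have h2 := h1.comp x (hasFDerivAt_aff (ut 1 n) b x)
  have h3 : tm ∘ aff (ut 1 n) b = tm := by
    ext1 x
    exact tm_unip n b x
  rw [h3] at h2
  rw [h2.fderiv]
  rfl

/-- The gradient direction attached to a vector of the flat. -/
def gv (d w : Fin 3 → ℝ) : E12 := (0, ![d 0 * w 0, 0, 0, d 1 * w 1, 0, d 2 * w 2])

theorem grad_formula (n : Fin 3 → ℝ) (b : Fin 6 → ℝ) {d : Fin 3 → ℝ} (hd : ∀ i, 0 < d i)
    (w : Fin 3 → ℝ) (k : E12) :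
    siegelMetric (aff (ut 1 n) b (dg d)) (actE (ut 1 n) (gv d w)) k =
      w 0 * fderiv ℝ tm (aff (ut 1 n) b (dg d)) k 0 +
      w 1 * fderiv ℝ tm (aff (ut 1 n) b (dg d)) k 1 +
      w 2 * fderiv ℝ tm (aff (ut 1 n) b (dg d)) k 2 := by
  have hu : IsUnit (ut 1 n).det := isUnit_det_ut 1 n (by simp)
  obtain ⟨k', rfl⟩ : ∃ k', k = actE (ut 1 n) k' := ⟨_, (actE_inv_right hu k).symm⟩
  rw [siegelMetric_aff hu, fderiv_tm_aff n b (dg_mem hd), siegelMetric_dg hd,
    fderiv_tm (dg_mem hd)]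
  have h0 := (hd 0).ne'
  have h1 := (hd 1).ne'
  have h2 := (hd 2).ne'
  unfold dq dm1 dm2 dm3 m1 m2 m3 gv
  simp [dg]
  field_simp
  ring

theorem hasDerivAt_dgline (a w : Fin 3 → ℝ) (s : ℝ) :
    HasDerivAt (fun s : ℝ => dg fun i => Real.exp (a i + s * w i))
      (gv (fun i => Real.exp (a i + s * w i)) w) s := by
  have h : ∀ i, HasDerivAt (fun s : ℝ => Real.exp (a i + s * w i))
      (Real.exp (a i + s * w i) * w i) s := by
    intro i
    have := (((hasDerivAt_id s).mul_const (w i)).const_add (a i)).exp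
    simpa using this
  refine (hasDerivAt_const s 0).prodMk ?_
  rw [hasDerivAt_pi]
  intro i
  fin_cases i
  · exact h 0
  · exact hasDerivAt_const _ _
  · exact hasDerivAt_const _ _
  · exact h 1
  · exact hasDerivAt_const _ _
  · exact h 2

theorem contDiff_dgexp {F : Type} [NormedAddCommGroup F] [NormedSpace ℝ F] {f : F → Fin 3 → ℝ}
    (hf : ContDiff ℝ ∞ f) : ContDiff ℝ ∞ (fun p => dg fun i => Real.exp (f p i)) := by
  have hc : ∀ i, ContDiff ℝ ∞ (fun p => Real.exp (f p i)) := fun i => (contDiff_pi.1 hf i).exp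
  refine contDiff_const.prodMk ?_
  rw [contDiff_pi]
  intro i
  fin_cases i
  · exact hc 0
  · exact contDiff_const
  · exact contDiff_const
  · exact hc 1
  · exact contDiff_const
  · exact hc 2

theorem diag_geodesic (a w : Fin 3 → ℝ) :
    IsGeodesic siegel (fun s : ℝ => dg fun i => Real.exp (a i + s * w i)) := by
  have hd : ∀ s : ℝ, ∀ i, 0 < Real.exp (a i + s * w i) := fun s i => Real.exp_pos _
  refine ⟨?_, fun s => dg_mem (hd s), fun t v => ?_⟩
  · apply contDiff_dgexp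
    rw [contDiff_pi]
    intro i
    exact contDiff_const.add (contDiff_id.mul contDiff_const)
  · rw [fderiv_metric_apply siegel (dg_mem (hd t)), (hasDerivAt_dgline a w t).deriv,
      fderiv_form_of_snd (hd t) rfl]
    have hder : deriv (fun s : ℝ => dg fun i => Real.exp (a i + s * w i)) =
        fun s => gv (fun i => Real.exp (a i + s * w i)) w := by
      ext1 s
      exact (hasDerivAt_dgline a w s).deriv
    rw [hder]
    have hm : (fun s : ℝ => siegel.metric (dg fun i => Real.exp (a i + s * w i))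
        (gv (fun i => Real.exp (a i + s * w i)) w) v) = fun s =>
        w 0 * v.2 0 * Real.exp (-(a 0 + s * w 0)) + w 1 * v.2 3 * Real.exp (-(a 1 + s * w 1)) +
        w 2 * v.2 5 * Real.exp (-(a 2 + s * w 2)) := by
      ext1 s
      show siegelMetric _ _ _ = _
      rw [siegelMetric_dg (hd s)]
      unfold dq gv
      simp only [Real.exp_neg]
      simp
      field_simp
    rw [hm]
    have h : ∀ i, HasDerivAt (fun s : ℝ => Real.exp (-(a i + s * w i)))
        (Real.exp (-(a i + t * w i)) * (-w i)) t := by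
      intro i
      have := ((((hasDerivAt_id t).mul_const (w i)).const_add (a i)).neg).exp
      simpa using this
    have h2 := (((h 0).const_mul (w 0 * v.2 0)).add ((h 1).const_mul (w 1 * v.2 3))).add
      ((h 2).const_mul (w 2 * v.2 5))
    refine h2.congr_deriv ?_
    simp only [Real.exp_neg]
    unfold tq gv
    simp only [Fin.sum_univ_three]
    simp [sym]
    field_simp
    ring

/-- The unit vector in the direction of the axis. -/
noncomputable def ax : Fin 3 → ℝ := ![3 / Real.sqrt 14, 2 / Real.sqrt 14, 1 / Real.sqrt 14]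

theorem ax_norm : ax 0 ^ 2 + ax 1 ^ 2 + ax 2 ^ 2 = 1 := by
  have h := sqrt14_sq
  simp [ax, div_pow]
  norm_num

theorem ax_scale (x : ℝ) : 3 * x = Real.sqrt 14 * x * ax 0 ∧ 2 * x = Real.sqrt 14 * x * ax 1 ∧
    x = Real.sqrt 14 * x * ax 2 := by
  have h := sqrt14_pos.ne'
  refine ⟨?_, ?_, ?_⟩ <;> simp [ax] <;> field_simp

theorem ax_dot (v : Fin 3 → ℝ) : 3 * v 0 + 2 * v 1 + v 2 =
    Real.sqrt 14 * (ax 0 * v 0 + ax 1 * v 1 + ax 2 * v 2) := by
  have h := sqrt14_pos.ne'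
  simp [ax]
  field_simp

/-- Every vector lies in a plane containing the axis. -/
theorem exists_plane (t : Fin 3 → ℝ) : ∃ (e : Fin 3 → ℝ) (p q : ℝ),
    e 0 ^ 2 + e 1 ^ 2 + e 2 ^ 2 = 1 ∧ ax 0 * e 0 + ax 1 * e 1 + ax 2 * e 2 = 0 ∧
      ∀ i, t i = p * ax i + q * e i := by
  have han := ax_norm
  set p := ax 0 * t 0 + ax 1 * t 1 + ax 2 * t 2 with hp
  set u : Fin 3 → ℝ := fun i => t i - p * ax i with hu
  have hu0 : ax 0 * u 0 + ax 1 * u 1 + ax 2 * u 2 = 0 := by
    have : ax 0 * u 0 + ax 1 * u 1 + ax 2 * u 2 =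
      (ax 0 * t 0 + ax 1 * t 1 + ax 2 * t 2) - p * (ax 0 ^ 2 + ax 1 ^ 2 + ax 2 ^ 2) := by
      rw [hu]; ring
    rw [this, han, hp]
    ring
  by_cases hN : u 0 ^ 2 + u 1 ^ 2 + u 2 ^ 2 = 0
  · refine ⟨![0, 1 / Real.sqrt 5, -2 / Real.sqrt 5], p, 0, ?_, ?_, ?_⟩
    · have h5 : Real.sqrt 5 ^ 2 = 5 := Real.sq_sqrt (by norm_num)
      have h5' : 0 < Real.sqrt 5 := Real.sqrt_pos.2 (by norm_num)
      simp [div_pow, h5]
      norm_num
    · have h5' : Real.sqrt 5 ≠ 0 := (Real.sqrt_pos.2 (by norm_num)).ne'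
      have h := sqrt14_pos.ne'
      simp [ax]
      field_simp
      norm_num
    · have q0 := sq_nonneg (u 0)
      have q1 := sq_nonneg (u 1)
      have q2 := sq_nonneg (u 2)
      intro i
      rw [zero_mul, add_zero]
      have : u i = 0 := by
        fin_cases i
        · exact pow_eq_zero_iff (two_ne_zero) |>.1 (show u 0 ^ 2 = 0 by linarith)
        · exact pow_eq_zero_iff (two_ne_zero) |>.1 (show u 1 ^ 2 = 0 by linarith)
        · exact pow_eq_zero_iff (two_ne_zero) |>.1 (show u 2 ^ 2 = 0 by linarith)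
      have h2 : t i - p * ax i = 0 := this
      linarith
  · set N := u 0 ^ 2 + u 1 ^ 2 + u 2 ^ 2 with hNd
    have hN0 : 0 < N := lt_of_le_of_ne (by positivity) (Ne.symm hN)
    have hs : 0 < Real.sqrt N := Real.sqrt_pos.2 hN0
    have hsq : Real.sqrt N ^ 2 = N := Real.sq_sqrt hN0.le
    refine ⟨fun i => u i / Real.sqrt N, p, Real.sqrt N, ?_, ?_, ?_⟩
    · simp only [div_pow, hsq]
      rw [← add_div, ← add_div, ← hNd, div_self hN]
    · have : ax 0 * (u 0 / Real.sqrt N) + ax 1 * (u 1 / Real.sqrt N) +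
        ax 2 * (u 2 / Real.sqrt N) = (ax 0 * u 0 + ax 1 * u 1 + ax 2 * u 2) / Real.sqrt N := by
        ring
      simp only [this, hu0, zero_div]
    · intro i
      simp only
      rw [mul_div_cancel₀ _ hs.ne']
      show t i = p * ax i + (t i - p * ax i)
      ring

/-- The parametrization of a plane through the axis. -/
noncomputable def pl (e : Fin 3 → ℝ) (t : Fin 3 → ℝ) (x : EuclideanSpace ℝ (Fin 2)) :
    Fin 3 → ℝ := fun i => t i + (x 0 * ax i + x 1 * e i)

/-- The flat sections. -/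
noncomputable def sec (e t n : Fin 3 → ℝ) (b : Fin 6 → ℝ) (x : EuclideanSpace ℝ (Fin 2)) : E12 :=
  aff (ut 1 n) b (dg fun i => Real.exp (pl e t x i))

theorem sec_mem (e t n : Fin 3 → ℝ) (b : Fin 6 → ℝ) (x : EuclideanSpace ℝ (Fin 2)) :
    sec e t n b x ∈ siegelSet := aff_mem 1 n (by simp) b (dg_mem fun i => Real.exp_pos _)

theorem tm_sec (e t n : Fin 3 → ℝ) (b : Fin 6 → ℝ) (x : EuclideanSpace ℝ (Fin 2)) :
    tm (sec e t n b x) = pl e t x := by
  unfold sec
  rw [tm_unip, tm_dg]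

theorem contDiff_sec (e t n : Fin 3 → ℝ) (b : Fin 6 → ℝ) : ContDiff ℝ ∞ (sec e t n b) := by
  have h1 : ContDiff ℝ ∞ (pl e t) := by
    rw [contDiff_pi]
    intro i
    have hx : ∀ j, ContDiff ℝ ∞ (fun x : EuclideanSpace ℝ (Fin 2) => x j) := fun j => by fun_prop
    exact contDiff_const.add (((hx 0).mul contDiff_const).add ((hx 1).mul contDiff_const))
  have h2 := contDiff_dgexp h1
  exact ((actE (ut 1 n)).contDiff.comp h2).add contDiff_const

theorem sec_line (e t n : Fin 3 → ℝ) (b : Fin 6 → ℝ) (x v : EuclideanSpace ℝ (Fin 2)) (s : ℝ) :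
    sec e t n b (x + s • v) = aff (ut 1 n) b (dg fun i =>
      Real.exp (pl e t x i + s * (v 0 * ax i + v 1 * e i))) := by
  unfold sec
  congr 2
  ext1 i
  congr 1
  unfold pl
  simp
  ring

theorem fderiv_sec (e t n : Fin 3 → ℝ) (b : Fin 6 → ℝ) (x v : EuclideanSpace ℝ (Fin 2)) :
    fderiv ℝ (sec e t n b) x v = actE (ut 1 n) (gv (fun i => Real.exp (pl e t x i))
      (fun i => v 0 * ax i + v 1 * e i)) := by
  have hl : HasDerivAt (fun τ : ℝ => x + τ • v) v 0 := by
    have := ((hasDerivAt_id (0 : ℝ)).smul_const v).const_add x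
    simpa using this
  have hs : HasFDerivAt (sec e t n b) (fderiv ℝ (sec e t n b) x) x :=
    (((contDiff_sec e t n b).differentiable (by simp)) x).hasFDerivAt
  have h1 : HasDerivAt (fun τ : ℝ => sec e t n b (x + τ • v)) (fderiv ℝ (sec e t n b) x v) 0 :=
    hs.comp_hasDerivAt_of_eq (0 : ℝ) hl (by simp)
  have h2 : HasDerivAt (fun τ : ℝ => sec e t n b (x + τ • v)) (actE (ut 1 n)
      (gv (fun i => Real.exp (pl e t x i + 0 * (v 0 * ax i + v 1 * e i)))
        (fun i => v 0 * ax i + v 1 * e i))) 0 := by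
    have h3 : (fun τ : ℝ => sec e t n b (x + τ • v)) = fun τ : ℝ => aff (ut 1 n) b (dg fun i =>
        Real.exp (pl e t x i + τ * (v 0 * ax i + v 1 * e i))) := by
      ext1 τ
      exact sec_line e t n b x v τ
    rw [h3]
    exact (hasFDerivAt_aff (ut 1 n) b _).comp_hasDerivAt 0
      (hasDerivAt_dgline (pl e t x) (fun i => v 0 * ax i + v 1 * e i) 0)
  rw [h1.unique h2]
  simp

theorem fderiv_tm_sec (e t n : Fin 3 → ℝ) (b : Fin 6 → ℝ) (x v : EuclideanSpace ℝ (Fin 2)) :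
    fderiv ℝ tm (sec e t n b x) (fderiv ℝ (sec e t n b) x v) =
      fun i => v 0 * ax i + v 1 * e i := by
  have h0 : ∀ i, Real.exp (pl e t x i) ≠ 0 := fun i => (Real.exp_pos _).ne'
  rw [fderiv_sec]
  unfold sec
  rw [fderiv_tm_aff n b (dg_mem fun i => Real.exp_pos _), fderiv_tm (dg_mem fun i =>
    Real.exp_pos _)]
  have a0 := h0 0
  have a1 := h0 1
  have a2 := h0 2
  ext i
  unfold dm1 dm2 dm3 m1 m2 m3 gv
  fin_cases i <;> simp [dg] <;> field_simp <;> ring

theorem metric_sec (e t n : Fin 3 → ℝ) (b : Fin 6 → ℝ) (x v : EuclideanSpace ℝ (Fin 2))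
    (k : E12) :
    siegelMetric (sec e t n b x) (fderiv ℝ (sec e t n b) x v) k =
      (v 0 * ax 0 + v 1 * e 0) * fderiv ℝ tm (sec e t n b x) k 0 +
      (v 0 * ax 1 + v 1 * e 1) * fderiv ℝ tm (sec e t n b x) k 1 +
      (v 0 * ax 2 + v 1 * e 2) * fderiv ℝ tm (sec e t n b x) k 2 := by
  rw [fderiv_sec]
  unfold sec
  rw [grad_formula n b (fun i => Real.exp_pos _)]

theorem sec_isFlatSection {e t n : Fin 3 → ℝ} {b : Fin 6 → ℝ} {p q : ℝ}
    (he : e 0 ^ 2 + e 1 ^ 2 + e 2 ^ 2 = 1) (hae : ax 0 * e 0 + ax 1 * e 1 + ax 2 * e 2 = 0)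
    (ht : ∀ i, t i = p * ax i + q * e i) : IsFlatSection siegel leaf (sec e t n b) where
  smooth := contDiff_sec e t n b
  mem := sec_mem e t n b
  isometric := fun x v w => by
    show siegelMetric _ _ _ = _
    rw [metric_sec, fderiv_tm_sec, EuclideanSpace.inner_eq_star_dotProduct]
    have ha := ax_norm
    simp [dotProduct, Fin.sum_univ_two]
    linear_combination (v 0 * w 0) * ha + (v 1 * w 1) * he + (v 0 * w 1 + v 1 * w 0) * hae
  geodesic := fun x v => by
    have h := (diag_geodesic (pl e t x) (fun i => v 0 * ax i + v 1 * e i)).comp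
      (preservesMetric_aff 1 n (by simp) b)
    have h3 : (fun s : ℝ => sec e t n b (x + s • v)) = fun s : ℝ => aff (ut 1 n) b (dg fun i =>
        Real.exp (pl e t x i + s * (v 0 * ax i + v 1 * e i))) := by
      ext1 s
      exact sec_line e t n b x v s
    rw [h3]
    exact h
  meets := fun y hy => by
    have ha := ax_norm
    have hN : 0 ≤ 14 * F1 y - F2 y ^ 2 := by
      have := rot_normSq (tm y)
      unfold F1 F2
      rw [← this]
      positivity
    have hq := sqrt14_sq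
    have hq0 := sqrt14_pos.ne'
    set P := F2 y / Real.sqrt 14 with hP
    set Q := Real.sqrt ((14 * F1 y - F2 y ^ 2) / 14) with hQ
    have hQ2 : Q ^ 2 = (14 * F1 y - F2 y ^ 2) / 14 := Real.sq_sqrt (by positivity)
    have hP2 : P ^ 2 = F2 y ^ 2 / 14 := by rw [hP, div_pow, hq]
    refine ⟨WithLp.toLp 2 ![P - p, Q - q], sec_mem _ _ _ _ _, ?_, ?_⟩
    · have e0 : F1 (sec e t n b (WithLp.toLp 2 ![P - p, Q - q])) =
          (P * ax 0 + Q * e 0) ^ 2 + (P * ax 1 + Q * e 1) ^ 2 + (P * ax 2 + Q * e 2) ^ 2 := by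
        unfold F1
        rw [tm_sec]
        unfold pl
        simp [ht]
        ring
      rw [e0]
      have : (P * ax 0 + Q * e 0) ^ 2 + (P * ax 1 + Q * e 1) ^ 2 + (P * ax 2 + Q * e 2) ^ 2 =
          P ^ 2 + Q ^ 2 := by
        linear_combination P ^ 2 * ha + Q ^ 2 * he + 2 * P * Q * hae
      rw [this, hP2, hQ2]
      ring
    · have e0 : F2 (sec e t n b (WithLp.toLp 2 ![P - p, Q - q])) =
          3 * (P * ax 0 + Q * e 0) + 2 * (P * ax 1 + Q * e 1) + (P * ax 2 + Q * e 2) := by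
        unfold F2
        rw [tm_sec]
        unfold pl
        simp [ht]
        ring
      rw [e0]
      have h1 := ax_dot (fun i => P * ax i + Q * e i)
      rw [h1]
      have : ax 0 * (P * ax 0 + Q * e 0) + ax 1 * (P * ax 1 + Q * e 1) +
          ax 2 * (P * ax 2 + Q * e 2) = P := by
        linear_combination P * ha + Q * hae
      rw [this, hP]
      field_simp
  orthogonal := fun x v w hw => by
    show siegelMetric _ _ _ = 0
    obtain ⟨l, hl⟩ := exists_rot_of_tangent (sec_mem e t n b x) hw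
    rw [metric_sec, hl, tm_sec]
    have hr : ∀ z : Fin 3 → ℝ, rot z = ![Real.sqrt 14 * (ax 1 * z 2 - ax 2 * z 1),
        Real.sqrt 14 * (ax 2 * z 0 - ax 0 * z 2), Real.sqrt 14 * (ax 0 * z 1 - ax 1 * z 0)] := by
      intro z
      have hq0 := sqrt14_pos.ne'
      unfold rot ax
      ext i
      fin_cases i <;> simp <;> field_simp
    rw [hr]
    unfold pl
    simp [ht]
    ring

end Pool.Agent.Lib.MP_08f71d_gt
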